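import Pool.Agent.Q162.RH.Base

/-!
# Project RH: statements R1 and R2 (mean value, orthogonality)
-/

set_option autoImplicit false

open MeasureTheory

namespace Pool.Agent.Q73.RH

open Pool.Agent.Q162.RH

theorem r1 : R1 := by
  intro P hP
  simp_rw [MvPolynomial.eval_eq']
  rw [integral_finsetSum]
  · refine Finset.sum_eq_zero fun d hd => ?_
    rw [integral_const_mul]
    have hd0 : ∑ i, d i ≠ 0 := by
      intro h
      have h1 : d = 0 := by
        ext i
        have := (Finset.sum_eq_zero_iff_of_nonneg (fun i _ => Nat.zero_le (d i))).1 h i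
          (Finset.mem_univ i)
        simpa using this
      rw [h1, MvPolynomial.mem_support_iff, ← MvPolynomial.constantCoeff_eq] at hd
      exact hd hP
    obtain ⟨u, hu⟩ := exists_root _ hd0
    rw [int_zero u (fun x => ∏ i, x i ^ d i) (-1) (by norm_num) (fun x => by
      rw [prod_smul, hu]), mul_zero]
  · intro d _
    exact int_cont (fun x : V => MvPolynomial.coeff d P * ∏ i, x i ^ d i) (by fun_prop)

theorem r2 : R2 := by
  intro F G N hF hG
  have h1 : ∀ z : V, MvPolynomial.eval (s z) F * (starRingEnd ℂ) (MvPolynomial.eval (s z) G) =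
      ∑ d ∈ F.support, ∑ e ∈ G.support, (MvPolynomial.coeff d F *
        (starRingEnd ℂ) (MvPolynomial.coeff e G)) *
          ((∏ i, s z i ^ d i) * (starRingEnd ℂ) (∏ i, s z i ^ e i)) := by
    intro z
    rw [MvPolynomial.eval_eq', MvPolynomial.eval_eq', map_sum, Finset.sum_mul_sum]
    refine Finset.sum_congr rfl fun d _ => Finset.sum_congr rfl fun e _ => ?_
    rw [map_mul]
    ring
  have hint : ∀ d e : Fin 2 →₀ ℕ, IntegrableOn (fun z : V => (MvPolynomial.coeff d F *
        (starRingEnd ℂ) (MvPolynomial.coeff e G)) *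
          ((∏ i, s z i ^ d i) * (starRingEnd ℂ) (∏ i, s z i ^ e i))) B := by
    intro d e
    refine int_cont (fun x : V => (MvPolynomial.coeff d F *
        (starRingEnd ℂ) (MvPolynomial.coeff e G)) *
          ((∏ i, x i ^ d i) * (starRingEnd ℂ) (∏ i, x i ^ e i))) ?_
    refine continuous_const.mul (Continuous.mul (by fun_prop) ?_)
    exact Complex.continuous_conj.comp (by fun_prop)
  simp_rw [h1]
  rw [integral_finsetSum _ (fun d _ => integrable_finsetSum _ fun e _ => hint d e)]
  refine Finset.sum_eq_zero fun d hd => ?_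
  rw [integral_finsetSum _ (fun e _ => hint d e)]
  refine Finset.sum_eq_zero fun e he => ?_
  rw [integral_const_mul]
  have hdeg : ∑ i, d i < N := by
    have h2 := MvPolynomial.le_totalDegree hd
    rw [Finsupp.sum_fintype _ _ (fun _ => rfl)] at h2
    omega
  have hdeg' : N ≤ ∑ i, e i := by
    by_contra hlt
    push Not at hlt
    have h2 := hG _ hlt
    have h3 := congrArg (MvPolynomial.coeff e) h2
    rw [MvPolynomial.coeff_homogeneousComponent, MvPolynomial.coeff_zero, if_pos] at h3
    · exact (MvPolynomial.mem_support_iff.1 he) h3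
    · rw [Finsupp.degree_eq_sum]
  obtain ⟨j, hj⟩ := Nat.exists_eq_add_of_lt (lt_of_lt_of_le hdeg hdeg')
  obtain ⟨u, hu⟩ := exists_root (j + 1) (Nat.succ_ne_zero j)
  have hconj : (starRingEnd ℂ) (u : ℂ) * (u : ℂ) = 1 := by
    rw [mul_comm, Complex.mul_conj, Complex.normSq_eq_norm_sq, Circle.norm_coe]
    simp
  have hc : (u : ℂ) ^ (∑ i, d i) * (starRingEnd ℂ) ((u : ℂ) ^ (∑ i, e i)) = -1 := by
    have h4 : (starRingEnd ℂ) ((u : ℂ) ^ (j + 1)) = -1 := by rw [hu]; simp
    rw [hj, map_pow, show (∑ i, d i) + j + 1 = (∑ i, d i) + (j + 1) from by ring, pow_add,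
      ← mul_assoc, ← mul_pow, mul_comm (u : ℂ), hconj, one_pow, one_mul, ← map_pow, h4]
  rw [int_zero u (fun x => (∏ i, x i ^ d i) * (starRingEnd ℂ) (∏ i, x i ^ e i)) (-1)
    (by norm_num) (fun x => ?_), mul_zero]
  rw [prod_smul, prod_smul, map_mul, ← hc]
  ring

end Pool.Agent.Q73.RH
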