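import Pool.Agent.Q162.RH.Base

/-!
# Project RH: statement R10 (conclusion)
-/

set_option autoImplicit false

open MeasureTheory

namespace Pool.Agent.Q73.RH

open Pool.Agent.Q162.RH

/-- Bernoulli -/
theorem one_sub_pow_le {t : ℝ} (h0 : 0 ≤ t) (_h1 : t ≤ 1) (j : ℕ) : 1 - t ^ j ≤ j * (1 - t) := by
  have h := one_add_mul_le_pow (a := t - 1) (by linarith) j
  have e : 1 + (t - 1) = t := by ring
  rw [e] at h
  linarith

/-- the case `l ≤ k` -/
theorem term_aux {x : ℂ} (hx : ‖x‖ ≤ 1) (j l : ℕ) :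
    (x ^ j).re - 2 * l * (1 - ‖x‖) ≤ (x ^ (j + l) * (starRingEnd ℂ) x ^ l).re := by
  have h1 : x ^ (j + l) * (starRingEnd ℂ) x ^ l = (((‖x‖ ^ (2 * l) : ℝ)) : ℂ) * x ^ j := by
    rw [pow_add, mul_assoc, ← mul_pow, Complex.mul_conj, Complex.normSq_eq_norm_sq, mul_comm]
    congr 1
    push_cast
    rw [← pow_mul]
  rw [h1, Complex.re_ofReal_mul]
  have h2 := one_sub_pow_le (norm_nonneg x) hx (2 * l)
  push_cast at h2
  have h3 : (x ^ j).re ≤ 1 := by
    refine (Complex.re_le_norm _).trans ?_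
    rw [norm_pow]
    exact pow_le_one₀ (norm_nonneg x) hx
  have h4 : ‖x‖ ^ (2 * l) ≤ 1 := pow_le_one₀ (norm_nonneg x) hx
  nlinarith

theorem term {x : ℂ} (hx : ‖x‖ ≤ 1) (k l : ℕ) :
    (x ^ ((k - l) + (l - k))).re - 2 * (min k l : ℕ) * (1 - ‖x‖) ≤
      (x ^ k * (starRingEnd ℂ) x ^ l).re := by
  rcases le_total l k with h | h
  · obtain ⟨j, rfl⟩ := Nat.exists_eq_add_of_le h
    have e1 : (l + j - l) + (l - (l + j)) = j := by omega
    have e2 : min (l + j) l = l := by omega
    rw [e1, e2, add_comm l j]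
    exact term_aux hx j l
  · obtain ⟨j, rfl⟩ := Nat.exists_eq_add_of_le h
    have e1 : (k - (k + j)) + (k + j - k) = j := by omega
    have e2 : min k (k + j) = k := by omega
    rw [e1, e2]
    have h1 := term_aux (x := (starRingEnd ℂ) x) (by rw [RCLike.norm_conj]; exact hx) j k
    rw [RCLike.norm_conj, Complex.conj_conj, ← map_pow, Complex.conj_re] at h1
    have h2 : x ^ k * (starRingEnd ℂ) x ^ (k + j) = (starRingEnd ℂ) x ^ (j + k) * x ^ k := by
      rw [mul_comm, add_comm]
    rw [h2]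
    exact h1

/-- the pointwise lower bound -/
theorem lower {x : ℂ} (hx : ‖x‖ ≤ 1) (K : ℕ) (a : ℕ → ℝ) (ha : ∀ k, 0 ≤ a k ∧ a k ≤ 1) :
    (∑ k ∈ Finset.range (K + 1), ∑ l ∈ Finset.range (K + 1),
      ((a k * a l : ℝ) : ℂ) * x ^ ((k - l) + (l - k))).re - 2 * K * (K + 1) ^ 2 * (1 - ‖x‖) ≤
    ‖∑ k ∈ Finset.range (K + 1), (a k : ℂ) * x ^ k‖ ^ 2 := by
  have h1 : ‖∑ k ∈ Finset.range (K + 1), (a k : ℂ) * x ^ k‖ ^ 2 =
      ∑ k ∈ Finset.range (K + 1), ∑ l ∈ Finset.range (K + 1),
        (a k * a l) * (x ^ k * (starRingEnd ℂ) x ^ l).re := by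
    have h2 : ((‖∑ k ∈ Finset.range (K + 1), (a k : ℂ) * x ^ k‖ ^ 2 : ℝ) : ℂ) =
        ∑ k ∈ Finset.range (K + 1), ∑ l ∈ Finset.range (K + 1),
        ((a k * a l : ℝ) : ℂ) * (x ^ k * (starRingEnd ℂ) x ^ l) := by
      rw [← Complex.normSq_eq_norm_sq, ← Complex.mul_conj, map_sum, Finset.sum_mul_sum]
      refine Finset.sum_congr rfl fun k _ => Finset.sum_congr rfl fun l _ => ?_
      rw [map_mul, Complex.conj_ofReal, map_pow]
      push_cast
      ring
    have h3 := congrArg Complex.re h2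
    rw [Complex.ofReal_re, Complex.re_sum] at h3
    rw [h3]
    refine Finset.sum_congr rfl fun k _ => ?_
    rw [Complex.re_sum]
    refine Finset.sum_congr rfl fun l _ => ?_
    rw [Complex.re_ofReal_mul]
  rw [h1]
  have h4 : (∑ k ∈ Finset.range (K + 1), ∑ l ∈ Finset.range (K + 1),
      ((a k * a l : ℝ) : ℂ) * x ^ ((k - l) + (l - k))).re =
      ∑ k ∈ Finset.range (K + 1), ∑ l ∈ Finset.range (K + 1),
        (a k * a l) * (x ^ ((k - l) + (l - k))).re := by
    rw [Complex.re_sum]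
    refine Finset.sum_congr rfl fun k _ => ?_
    rw [Complex.re_sum]
    refine Finset.sum_congr rfl fun l _ => ?_
    rw [Complex.re_ofReal_mul]
  rw [h4]
  have hx0 : 0 ≤ 1 - ‖x‖ := by linarith
  have h5 : (2 * K * (K + 1) ^ 2 * (1 - ‖x‖) : ℝ) = ∑ _k ∈ Finset.range (K + 1),
      ∑ _l ∈ Finset.range (K + 1), 2 * K * (1 - ‖x‖) := by
    rw [Finset.sum_const, Finset.sum_const, Finset.card_range]
    simp only [nsmul_eq_mul]
    push_cast
    ring
  rw [h5, ← Finset.sum_sub_distrib]
  refine Finset.sum_le_sum fun k hk => ?_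
  rw [← Finset.sum_sub_distrib]
  refine Finset.sum_le_sum fun l _ => ?_
  have h6 := term hx k l
  have h7 : 0 ≤ a k * a l := mul_nonneg (ha k).1 (ha l).1
  have h8 : a k * a l ≤ 1 := mul_le_one₀ (ha k).2 (ha l).1 (ha l).2
  have h9 : ((min k l : ℕ) : ℝ) ≤ K := by
    have : min k l ≤ K := by
      have := Finset.mem_range.1 hk
      omega
    exact_mod_cast this
  have h10 : (0 : ℝ) ≤ ((min k l : ℕ) : ℝ) := Nat.cast_nonneg _
  calc a k * a l * (x ^ (k - l + (l - k))).re - 2 * K * (1 - ‖x‖)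
      ≤ a k * a l * (x ^ (k - l + (l - k))).re -
        a k * a l * (2 * (min k l : ℕ) * (1 - ‖x‖)) := by
        have h11 : a k * a l * (2 * (min k l : ℕ) * (1 - ‖x‖)) ≤ 1 * (2 * K * (1 - ‖x‖)) := by
          refine mul_le_mul h8 ?_ (by positivity) zero_le_one
          exact mul_le_mul_of_nonneg_right (by linarith) hx0
        linarith
    _ = a k * a l * ((x ^ (k - l + (l - k))).re - 2 * (min k l : ℕ) * (1 - ‖x‖)) := by ring
    _ ≤ a k * a l * (x ^ k * (starRingEnd ℂ) x ^ l).re := mul_le_mul_of_nonneg_left h6 h7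

/-- volume of the ball -/
noncomputable def vB : ℝ := (volume B).toReal

theorem vB_pos : 0 < vB := by
  unfold vB
  apply ENNReal.toReal_pos _ B_fin.ne
  have h1 : Metric.ball (0 : V) (1 / 2) ⊆ B := by
    intro z hz
    rw [mem_ball_zero_iff, pi_norm_lt_iff (by norm_num)] at hz
    show ∑ i, ‖z i‖ ^ 2 ≤ 1
    rw [Fin.sum_univ_two]
    have h0 := hz 0
    have h1 := hz 1
    have h2 := norm_nonneg (z 0)
    have h3 := norm_nonneg (z 1)
    nlinarith
  have h2 : 0 < volume (Metric.ball (0 : V) (1 / 2)) :=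
    Metric.measure_ball_pos volume (0 : V) (by norm_num)
  exact (lt_of_lt_of_le h2 (measure_mono h1)).ne'

theorem int_one (c : ℂ) : ∫ _z in B, c = vB * c := by
  rw [setIntegral_const, Complex.real_smul]
  rfl

theorem int_oneR (c : ℝ) : ∫ _z in B, c = vB * c := by
  rw [setIntegral_const, smul_eq_mul]
  rfl

/-- mean value -/
theorem mean (h1 : R1) (P : MvPolynomial (Fin 2) ℂ) :
    ∫ z in B, MvPolynomial.eval (s z) P = vB * MvPolynomial.constantCoeff P := by
  have h2 := h1 (P - MvPolynomial.C (MvPolynomial.constantCoeff P)) (by simp)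
  simp only [map_sub, MvPolynomial.eval_C] at h2
  rw [integral_sub (int_eval P) (integrableOn_const B_fin.ne), int_one] at h2
  exact sub_eq_zero.1 h2

theorem mean_re (h1 : R1) (P : MvPolynomial (Fin 2) ℂ) :
    ∫ z in B, (MvPolynomial.eval (s z) P).re = vB * (MvPolynomial.constantCoeff P).re := by
  have h2 := integral_re (int_eval P)
  rw [mean h1 P] at h2
  have h3 : ∫ z in B, (MvPolynomial.eval (s z) P).re =
      ((vB : ℂ) * MvPolynomial.constantCoeff P).re := h2
  rw [h3, Complex.re_ofReal_mul]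

theorem r10 : R1 → R7 → R9 → R10 := by
  intro h1 h7 h9 hcon
  obtain ⟨M0, hM0⟩ := hcon
  set M : ℝ := max M0 0 with hM
  have hMn : 0 ≤ M := le_max_right _ _
  obtain ⟨K, a, ha0, ha, hsum, hq⟩ := h9 (3 * M + 2)
  have hv := vB_pos
  set D : ℝ := 2 * K * (K + 1) ^ 2 + 1 with hD
  have hDp : 0 < D := by positivity
  obtain ⟨F, hF0, hF1, hF2⟩ := h7 (vB / D) (by positivity)
  -- the values of F are at most one in absolute value
  have hFle : ∀ z : V, ‖MvPolynomial.eval (s z) F‖ ≤ 1 := by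
    intro z
    by_cases hz : z = 0
    · rw [hz, s_zero]
      have h2 : MvPolynomial.eval (0 : V) F = MvPolynomial.constantCoeff F := by
        rw [MvPolynomial.eval_zero]
      rw [h2, hF0, norm_zero]
      exact zero_le_one
    · exact (hF1 _ (s_mem hz)).le
  let q : MvPolynomial (Fin 2) ℂ := ∑ k ∈ Finset.range (K + 1), MvPolynomial.C (a k : ℂ) * F ^ k
  have hq_eval : ∀ z : V, MvPolynomial.eval (s z) q =
      ∑ k ∈ Finset.range (K + 1), (a k : ℂ) * (MvPolynomial.eval (s z) F) ^ k := by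
    intro z
    simp only [q, map_sum, map_mul, map_pow, MvPolynomial.eval_C]
  have hq_const : MvPolynomial.constantCoeff q = 1 := by
    simp only [q, map_sum, map_mul, map_pow, MvPolynomial.constantCoeff_C, hF0]
    rw [Finset.sum_eq_single 0]
    · rw [ha0]
      simp
    · intro k _ hk
      rw [zero_pow hk, mul_zero]
    · intro h
      exact absurd (Finset.mem_range.2 (Nat.succ_pos K)) h
  let f : MvPolynomial (Fin 2) ℂ := q ^ 2
  have hf_const : MvPolynomial.constantCoeff f = 1 := by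
    simp only [f, map_pow, hq_const, one_pow]
  have hf_eval : ∀ z : V, MvPolynomial.eval (s z) f =
      (∑ k ∈ Finset.range (K + 1), (a k : ℂ) * (MvPolynomial.eval (s z) F) ^ k) ^ 2 := by
    intro z
    simp only [f, map_pow, hq_eval]
  have key := hM0 f (by rw [hf_const]; simp)
  -- upper bound of the integral of the real part
  have hre_int : IntegrableOn (fun z => (MvPolynomial.eval (s z) f).re) B := (int_eval f).re
  have hup : ∫ z in B, |(MvPolynomial.eval (s z) f).re| ≤ 3 * vB := by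
    have h2 : ∫ z in B, |(MvPolynomial.eval (s z) f).re| ≤
        ∫ z in B, ((MvPolynomial.eval (s z) f).re + 2) := by
      refine setIntegral_mono_on hre_int.abs (hre_int.add (integrableOn_const B_fin.ne)) B_meas
        fun z _ => ?_
      rw [hf_eval]
      exact hq _ (hFle z)
    refine h2.trans ?_
    rw [integral_add hre_int (integrableOn_const B_fin.ne), mean_re h1, hf_const, int_oneR]
    simp
    linarith
  -- lower bound of the integral of the absolute value
  let H : MvPolynomial (Fin 2) ℂ := ∑ k ∈ Finset.range (K + 1), ∑ l ∈ Finset.range (K + 1),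
    MvPolynomial.C ((a k * a l : ℝ) : ℂ) * F ^ ((k - l) + (l - k))
  have hH_eval : ∀ z : V, MvPolynomial.eval (s z) H =
      ∑ k ∈ Finset.range (K + 1), ∑ l ∈ Finset.range (K + 1),
        ((a k * a l : ℝ) : ℂ) * (MvPolynomial.eval (s z) F) ^ ((k - l) + (l - k)) := by
    intro z
    simp only [H, map_sum, map_mul, map_pow, MvPolynomial.eval_C]
  have hH_const : MvPolynomial.constantCoeff H = ((∑ k ∈ Finset.range (K + 1), a k ^ 2 : ℝ) : ℂ) := by
    simp only [H, map_sum, map_mul, map_pow, MvPolynomial.constantCoeff_C, hF0]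
    rw [Complex.ofReal_sum]
    refine Finset.sum_congr rfl fun k hk => ?_
    rw [Finset.sum_eq_single k]
    · simp
      ring
    · intro l _ hl
      have : (k - l) + (l - k) ≠ 0 := by omega
      rw [zero_pow this, mul_zero]
    · intro h
      exact absurd hk h
  have hlow : vB * (3 * M + 1) ≤ ∫ z in B, ‖MvPolynomial.eval (s z) f‖ := by
    have i1 : IntegrableOn (fun z => (MvPolynomial.eval (s z) H).re) B := (int_eval H).re
    have i2 : IntegrableOn (fun z => 1 - ‖MvPolynomial.eval (s z) F‖) B :=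
      (integrableOn_const B_fin.ne).sub (int_eval F).norm
    have h2 : ∫ z in B, ((MvPolynomial.eval (s z) H).re -
        2 * K * (K + 1) ^ 2 * (1 - ‖MvPolynomial.eval (s z) F‖)) ≤
        ∫ z in B, ‖MvPolynomial.eval (s z) f‖ := by
      refine setIntegral_mono_on (i1.sub (i2.const_mul _)) (int_eval f).norm B_meas fun z _ => ?_
      rw [hf_eval, hH_eval, norm_pow]
      exact lower (hFle z) K a ha
    refine le_trans ?_ h2
    rw [integral_sub i1 (i2.const_mul _), integral_const_mul, mean_re h1, hH_const,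
      Complex.ofReal_re]
    have hτ0 : 0 ≤ ∫ z in B, (1 - ‖MvPolynomial.eval (s z) F‖) :=
      setIntegral_nonneg B_meas fun z _ => by linarith [hFle z]
    have h3 : (2 * K * (K + 1) ^ 2 : ℝ) * ∫ z in B, (1 - ‖MvPolynomial.eval (s z) F‖) ≤ vB := by
      calc (2 * K * (K + 1) ^ 2 : ℝ) * ∫ z in B, (1 - ‖MvPolynomial.eval (s z) F‖)
          ≤ D * ∫ z in B, (1 - ‖MvPolynomial.eval (s z) F‖) := by
            refine mul_le_mul_of_nonneg_right ?_ hτ0
            rw [hD]
            linarith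
        _ ≤ D * (vB / D) := mul_le_mul_of_nonneg_left hF2 hDp.le
        _ = vB := by field_simp
    have h4 : vB * (3 * M + 2) ≤ vB * ∑ k ∈ Finset.range (K + 1), a k ^ 2 :=
      mul_le_mul_of_nonneg_left hsum hv.le
    linarith
  have hMle : M0 * ∫ z in B, |(MvPolynomial.eval (s z) f).re| ≤ M * (3 * vB) := by
    have h2 : 0 ≤ ∫ z in B, |(MvPolynomial.eval (s z) f).re| :=
      setIntegral_nonneg B_meas fun z _ => abs_nonneg _
    calc M0 * ∫ z in B, |(MvPolynomial.eval (s z) f).re|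
        ≤ M * ∫ z in B, |(MvPolynomial.eval (s z) f).re| :=
          mul_le_mul_of_nonneg_right (le_max_left _ _) h2
      _ ≤ M * (3 * vB) := mul_le_mul_of_nonneg_left hup hMn
  have hfin : vB * (3 * M + 1) ≤ M * (3 * vB) := hlow.trans (key.trans hMle)
  nlinarith

end Pool.Agent.Q73.RH
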