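import Pool.Agent.Q162.RH.Base

/-!
# Project RH: statement R3 (nets and packing on the sphere)
-/

set_option autoImplicit false

open MeasureTheory

namespace Pool.Agent.Q73.RH

open Pool.Agent.Q162.RH

theorem sup_le_dd (z w : V) : ‖z - w‖ ^ 2 ≤ dd z w := by
  have h0 : 0 ≤ dd z w := Finset.sum_nonneg fun _ _ => sq_nonneg _
  have h1 : ‖z - w‖ ≤ √(dd z w) := by
    rw [pi_norm_le_iff_of_nonneg (Real.sqrt_nonneg _)]
    intro i
    apply Real.le_sqrt_of_sq_le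
    exact Finset.single_le_sum (f := fun j => ‖z j - w j‖ ^ 2) (fun j _ => sq_nonneg _)
      (Finset.mem_univ i)
  calc ‖z - w‖ ^ 2 ≤ √(dd z w) ^ 2 := pow_le_pow_left₀ (norm_nonneg _) h1 2
    _ = dd z w := Real.sq_sqrt h0

theorem dd_le_sup (z w : V) : dd z w ≤ 2 * ‖z - w‖ ^ 2 := by
  unfold dd
  rw [Fin.sum_univ_two]
  have h : ∀ i, ‖z i - w i‖ ^ 2 ≤ ‖z - w‖ ^ 2 := fun i =>
    pow_le_pow_left₀ (norm_nonneg _) (norm_le_pi_norm (z - w) i) 2
  have h0 := h 0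
  have h1 := h 1
  linarith

/-- the kernel -/
noncomputable def ker (k : ℕ) (ζ x : V) : ℝ := (1 + ‖(k : ℝ) • (ζ - x)‖) ^ (-(5 : ℝ))

theorem ker_nonneg (k : ℕ) (ζ x : V) : 0 ≤ ker k ζ x := by
  unfold ker
  positivity

theorem fr : Module.finrank ℝ V = 4 := by
  rw [Module.finrank_pi_fintype]
  simp

theorem ker_int0 : Integrable (fun x : V => (1 + ‖x‖) ^ (-(5 : ℝ))) := by
  apply integrable_one_add_norm
  rw [fr]
  norm_num

theorem ker_int (k : ℕ) (hk : 1 ≤ k) (ζ : V) : Integrable (fun x : V => ker k ζ x) ∧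
    ∫ x, ker k ζ x = ((k : ℝ) ^ 4)⁻¹ * ∫ x : V, (1 + ‖x‖) ^ (-(5 : ℝ)) := by
  have hk0 : (k : ℝ) ≠ 0 := Nat.cast_ne_zero.2 (by omega)
  have h1 : Integrable (fun x : V => (1 + ‖(k : ℝ) • x‖) ^ (-(5 : ℝ))) :=
    ker_int0.comp_smul hk0
  constructor
  · exact h1.comp_sub_left ζ
  · unfold ker
    rw [integral_sub_left_eq_self (fun x : V => (1 + ‖(k : ℝ) • x‖) ^ (-(5 : ℝ))) volume ζ,
      Measure.integral_comp_smul volume (fun x : V => (1 + ‖x‖) ^ (-(5 : ℝ))) (k : ℝ), fr,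
      smul_eq_mul, abs_of_nonneg (by positivity)]

theorem exp_bound (t : ℝ) : (t + 5 / 4) ^ 5 * Real.exp (-(t ^ 2 / 16)) ≤ 20 ^ 5 ∨ t < 0 := by
  by_cases ht : t < 0
  · exact Or.inr ht
  left
  push Not at ht
  have h1 : t + 5 / 4 ≤ 20 * Real.exp (t ^ 2 / 80) := by
    have h2 := Real.add_one_le_exp (t ^ 2 / 80)
    nlinarith [sq_nonneg (t - 2)]
  have h3 : (t + 5 / 4) ^ 5 ≤ 20 ^ 5 * Real.exp (t ^ 2 / 16) := by
    calc (t + 5 / 4) ^ 5 ≤ (20 * Real.exp (t ^ 2 / 80)) ^ 5 :=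
          pow_le_pow_left₀ (by linarith) h1 5
      _ = 20 ^ 5 * Real.exp (t ^ 2 / 16) := by
        rw [mul_pow, ← Real.exp_nat_mul]
        congr 2
        push_cast
        ring
  calc (t + 5 / 4) ^ 5 * Real.exp (-(t ^ 2 / 16))
      ≤ (20 ^ 5 * Real.exp (t ^ 2 / 16)) * Real.exp (-(t ^ 2 / 16)) :=
        mul_le_mul_of_nonneg_right h3 (Real.exp_pos _).le
    _ = 20 ^ 5 := by
      rw [mul_assoc, ← Real.exp_add]
      simp

/-- comparison on a small ball -/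
theorem comp_ball (k : ℕ) (hk : 1 ≤ k) (ζ w x : V) (hx : ‖x - w‖ ≤ 1 / (4 * k : ℝ)) :
    Real.exp (-((k : ℝ) ^ 2 * dd ζ w / 16)) ≤ 20 ^ 5 * ker k ζ x := by
  have hk0 : (0 : ℝ) < k := by exact_mod_cast hk
  set t := (k : ℝ) * ‖ζ - w‖ with ht
  have ht0 : 0 ≤ t := by positivity
  have h1 : ‖(k : ℝ) • (ζ - x)‖ ≤ t + 1 / 4 := by
    rw [norm_smul, Real.norm_eq_abs, abs_of_pos hk0]
    have h2 : ‖ζ - x‖ ≤ ‖ζ - w‖ + ‖x - w‖ := by
      have : ζ - x = (ζ - w) - (x - w) := by abel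
      rw [this]
      exact norm_sub_le _ _
    calc (k : ℝ) * ‖ζ - x‖ ≤ k * (‖ζ - w‖ + 1 / (4 * k : ℝ)) :=
          mul_le_mul_of_nonneg_left (h2.trans (by linarith)) hk0.le
      _ = t + 1 / 4 := by
        rw [mul_add, ht]
        congr 1
        field_simp
  have h3 : Real.exp (-((k : ℝ) ^ 2 * dd ζ w / 16)) ≤ Real.exp (-(t ^ 2 / 16)) := by
    apply Real.exp_le_exp.2
    have h4 := sup_le_dd ζ w
    have h5 : t ^ 2 ≤ (k : ℝ) ^ 2 * dd ζ w := by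
      rw [ht, mul_pow]
      exact mul_le_mul_of_nonneg_left h4 (by positivity)
    linarith
  refine h3.trans ?_
  have h6 : (t + 5 / 4) ^ 5 * Real.exp (-(t ^ 2 / 16)) ≤ 20 ^ 5 := by
    rcases exp_bound t with h | h
    · exact h
    · linarith
  unfold ker
  have hpos : 0 < 1 + ‖(k : ℝ) • (ζ - x)‖ := by positivity
  have h7 : (1 + ‖(k : ℝ) • (ζ - x)‖) ^ (-(5 : ℝ)) = ((1 + ‖(k : ℝ) • (ζ - x)‖) ^ 5)⁻¹ := by
    rw [Real.rpow_neg hpos.le]
    congr 1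
    exact_mod_cast Real.rpow_natCast _ 5
  rw [h7, ← div_eq_mul_inv, le_div_iff₀ (by positivity), mul_comm]
  refine le_trans (mul_le_mul_of_nonneg_right ?_ (Real.exp_pos _).le) h6
  exact pow_le_pow_left₀ hpos.le (by linarith) 5

/-- volume of the unit ball -/
noncomputable def v0 : ℝ := (volume (Metric.ball (0 : V) 1)).toReal

theorem v0_pos : 0 < v0 := by
  unfold v0
  apply ENNReal.toReal_pos
  · exact (Metric.measure_ball_pos volume (0 : V) one_pos).ne'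
  · exact measure_ball_lt_top.ne

theorem vol_ball (w : V) {r : ℝ} (hr : 0 < r) :
    (volume (Metric.ball w r)).toReal = r ^ 4 * v0 := by
  rw [Measure.addHaar_ball_of_pos volume w hr, fr, ENNReal.toReal_mul,
    ENNReal.toReal_ofReal (by positivity)]
  rfl

/-- the packing bound -/
theorem pack (k : ℕ) (hk : 1 ≤ k) (W : Finset V)
    (hW : ∀ w ∈ W, ∀ w' ∈ W, w ≠ w' → 1 / (k : ℝ) ^ 2 ≤ dd w w') (ζ : V) :
    ∑ w ∈ W, Real.exp (-((k : ℝ) ^ 2 * dd ζ w / 16)) ≤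
      20 ^ 5 * 256 / v0 * ∫ x : V, (1 + ‖x‖) ^ (-(5 : ℝ)) := by
  classical
  have hk0 : (0 : ℝ) < k := by exact_mod_cast hk
  set r : ℝ := 1 / (4 * k : ℝ) with hr
  have hr0 : 0 < r := by positivity
  obtain ⟨hint, hI⟩ := ker_int k hk ζ
  have hdisj : ∀ w ∈ W, ∀ w' ∈ W, w ≠ w' → Disjoint (Metric.ball w r) (Metric.ball w' r) := by
    intro w hw w' hw' hne
    apply Metric.ball_disjoint_ball
    rw [dist_eq_norm]
    have h1 := hW w hw w' hw' hne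
    have h2 := dd_le_sup w w'
    by_contra hlt
    push Not at hlt
    have h3 : ‖w - w'‖ ^ 2 < (r + r) ^ 2 := pow_lt_pow_left₀ hlt (norm_nonneg _) (by norm_num)
    have h4 : (r + r) ^ 2 = 1 / 4 * (1 / (k : ℝ) ^ 2) := by
      rw [hr]
      field_simp
      ring
    have h5 : 0 < 1 / (k : ℝ) ^ 2 := by positivity
    rw [h4] at h3
    linarith
  have hterm : ∀ w ∈ W, Real.exp (-((k : ℝ) ^ 2 * dd ζ w / 16)) * (r ^ 4 * v0) ≤
      ∫ x in Metric.ball w r, 20 ^ 5 * ker k ζ x := by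
    intro w _
    rw [← vol_ball w hr0]
    have h1 : ∫ _x in Metric.ball w r, Real.exp (-((k : ℝ) ^ 2 * dd ζ w / 16)) =
        Real.exp (-((k : ℝ) ^ 2 * dd ζ w / 16)) * (volume (Metric.ball w r)).toReal := by
      rw [setIntegral_const, smul_eq_mul, mul_comm]
      rfl
    rw [← h1]
    refine setIntegral_mono_on ?_ ?_ measurableSet_ball fun x hx => ?_
    · exact integrableOn_const measure_ball_lt_top.ne
    · exact (hint.const_mul _).integrableOn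
    · refine comp_ball k hk ζ w x ?_
      rw [← dist_eq_norm]
      exact (Metric.mem_ball.1 hx).le
  have hsum : (∑ w ∈ W, Real.exp (-((k : ℝ) ^ 2 * dd ζ w / 16))) * (r ^ 4 * v0) ≤
      20 ^ 5 * (((k : ℝ) ^ 4)⁻¹ * ∫ x : V, (1 + ‖x‖) ^ (-(5 : ℝ))) := by
    rw [Finset.sum_mul, ← hI, ← integral_const_mul]
    refine (Finset.sum_le_sum hterm).trans ?_
    rw [← integral_biUnion_finset W (fun w _ => measurableSet_ball) (fun w hw w' hw' hne =>
      hdisj w hw w' hw' hne) (fun w _ => (hint.const_mul _).integrableOn)]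
    refine setIntegral_le_integral (hint.const_mul _) (Filter.Eventually.of_forall fun x => ?_)
    have := ker_nonneg k ζ x
    positivity
  have hv := v0_pos
  have hrr : r ^ 4 = ((k : ℝ) ^ 4)⁻¹ / 256 := by
    rw [hr]
    field_simp
    norm_num
  rw [hrr] at hsum
  have hk4 : 0 < ((k : ℝ) ^ 4)⁻¹ := by positivity
  have h2 : (∑ w ∈ W, Real.exp (-((k : ℝ) ^ 2 * dd ζ w / 16))) * v0 ≤
      256 * (20 ^ 5 * ∫ x : V, (1 + ‖x‖) ^ (-(5 : ℝ))) := by
    have h3 : ((k : ℝ) ^ 4)⁻¹ * ((∑ w ∈ W, Real.exp (-((k : ℝ) ^ 2 * dd ζ w / 16))) * v0) ≤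
        ((k : ℝ) ^ 4)⁻¹ * (256 * (20 ^ 5 * ∫ x : V, (1 + ‖x‖) ^ (-(5 : ℝ)))) := by
      calc ((k : ℝ) ^ 4)⁻¹ * ((∑ w ∈ W, Real.exp (-((k : ℝ) ^ 2 * dd ζ w / 16))) * v0)
          = 256 * ((∑ w ∈ W, Real.exp (-((k : ℝ) ^ 2 * dd ζ w / 16))) *
            (((k : ℝ) ^ 4)⁻¹ / 256 * v0)) := by ring
        _ ≤ 256 * (20 ^ 5 * (((k : ℝ) ^ 4)⁻¹ * ∫ x : V, (1 + ‖x‖) ^ (-(5 : ℝ)))) := by
          linarith
        _ = _ := by ring
    exact le_of_mul_le_mul_left h3 hk4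
  rw [div_mul_eq_mul_div, le_div_iff₀ hv]
  linarith

theorem dd_le_four {z w : V} (hz : z ∈ S) (hw : w ∈ S) : dd z w ≤ 4 := by
  have h1 : ∑ i, ‖z i‖ ^ 2 = 1 := hz
  have h2 : ∑ i, ‖w i‖ ^ 2 = 1 := hw
  have h3 : ∀ i, ‖z i - w i‖ ^ 2 ≤ 2 * ‖z i‖ ^ 2 + 2 * ‖w i‖ ^ 2 := by
    intro i
    have h4 := norm_sub_le (z i) (w i)
    have h5 : ‖z i - w i‖ ^ 2 ≤ (‖z i‖ + ‖w i‖) ^ 2 := pow_le_pow_left₀ (norm_nonneg _) h4 2
    nlinarith [sq_nonneg (‖z i‖ - ‖w i‖)]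
  unfold dd
  refine (Finset.sum_le_sum fun i _ => h3 i).trans ?_
  rw [Finset.sum_add_distrib, ← Finset.mul_sum, ← Finset.mul_sum, h1, h2]
  norm_num

theorem dd_comm (z w : V) : dd z w = dd w z := by
  unfold dd
  refine Finset.sum_congr rfl fun i _ => ?_
  rw [norm_sub_rev]

theorem r3 : R3 := by
  classical
  set C0 : ℝ := 20 ^ 5 * 256 / v0 * ∫ x : V, (1 + ‖x‖) ^ (-(5 : ℝ)) with hC0
  refine ⟨max C0 1, lt_of_lt_of_le one_pos (le_max_right _ _), fun k hk => ?_⟩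
  have hk0 : (0 : ℝ) < k := by exact_mod_cast hk
  -- separated sets
  let Sp : Finset V → Prop := fun W => (∀ w ∈ W, w ∈ S) ∧
    ∀ w ∈ W, ∀ w' ∈ W, w ≠ w' → 1 / (k : ℝ) ^ 2 ≤ dd w w'
  have hbound : ∃ n : ℕ, ∀ W : Finset V, Sp W → W.card ≤ n := by
    obtain ⟨n, hn⟩ := exists_nat_gt (C0 * Real.exp ((k : ℝ) ^ 2 / 4))
    refine ⟨n, fun W hW => ?_⟩
    rcases W.eq_empty_or_nonempty with h0 | ⟨ζ, hζ⟩
    · rw [h0]
      simp
    · have h1 := pack k hk W hW.2 ζ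
      have h2 : (W.card : ℝ) * Real.exp (-((k : ℝ) ^ 2 / 4)) ≤
          ∑ w ∈ W, Real.exp (-((k : ℝ) ^ 2 * dd ζ w / 16)) := by
        rw [← nsmul_eq_mul]
        refine Finset.card_nsmul_le_sum W _ _ fun w hw => ?_
        apply Real.exp_le_exp.2
        have h3 := dd_le_four (hW.1 ζ hζ) (hW.1 w hw)
        have h4 : (k : ℝ) ^ 2 * dd ζ w ≤ (k : ℝ) ^ 2 * 4 :=
          mul_le_mul_of_nonneg_left h3 (by positivity)
        linarith
      have h5 : (W.card : ℝ) ≤ C0 * Real.exp ((k : ℝ) ^ 2 / 4) := by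
        have h6 : (W.card : ℝ) * Real.exp (-((k : ℝ) ^ 2 / 4)) * Real.exp ((k : ℝ) ^ 2 / 4) ≤
            C0 * Real.exp ((k : ℝ) ^ 2 / 4) :=
          mul_le_mul_of_nonneg_right (h2.trans h1) (Real.exp_pos _).le
        rw [mul_assoc, ← Real.exp_add, neg_add_cancel, Real.exp_zero, mul_one] at h6
        exact h6
      exact_mod_cast (h5.trans_lt hn).le
  obtain ⟨n, hn⟩ := hbound
  -- a separated set of maximal cardinality
  have hex : ∃ W : Finset V, Sp W ∧ ∀ W' : Finset V, Sp W' → W'.card ≤ W.card := by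
    let P : ℕ → Prop := fun j => ∃ W : Finset V, Sp W ∧ W.card = j
    have hP0 : P 0 := ⟨∅, ⟨by simp, by simp⟩, rfl⟩
    obtain ⟨W, hW, hcard⟩ := Nat.findGreatest_spec (P := P) (Nat.zero_le n) hP0
    refine ⟨W, hW, fun W' hW' => ?_⟩
    rw [hcard]
    exact Nat.le_findGreatest (hn W' hW') ⟨W', hW', rfl⟩
  obtain ⟨W, hW, hmax⟩ := hex
  refine ⟨W, hW.1, fun ζ hζ => ?_, fun ζ _ => (pack k hk W hW.2 ζ).trans (le_max_left _ _)⟩
  by_contra hcon
  push Not at hcon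
  have hζW : ζ ∉ W := by
    intro h
    have h1 := hcon ζ h
    have h2 : dd ζ ζ = 0 := by
      unfold dd
      simp
    rw [h2] at h1
    have : 0 < 1 / (k : ℝ) ^ 2 := by positivity
    linarith
  have hnew : Sp (insert ζ W) := by
    refine ⟨fun w hw => ?_, fun w hw w' hw' hne => ?_⟩
    · rcases Finset.mem_insert.1 hw with rfl | h
      · exact hζ
      · exact hW.1 w h
    · rcases Finset.mem_insert.1 hw with h | h
      · rcases Finset.mem_insert.1 hw' with h' | h'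
        · exact absurd (h.trans h'.symm) hne
        · rw [h]
          exact hcon w' h'
      · rcases Finset.mem_insert.1 hw' with h' | h'
        · rw [h', dd_comm]
          exact hcon w h
        · exact hW.2 w h w' h' hne
  have := hmax _ hnew
  rw [Finset.card_insert_of_notMem hζW] at this
  omega

end Pool.Agent.Q73.RH
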