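import Pool.Agent.Q162.RH.Base

/-!
# Project RH: statements R4 and R5 (peaking polynomials, signs)
-/

set_option autoImplicit false

open MeasureTheory

namespace Pool.Agent.Q73.RH

open Pool.Agent.Q162.RH

theorem eval_lin (w ζ : V) :
    MvPolynomial.eval ζ (lin w) = ∑ i, (starRingEnd ℂ) (w i) * ζ i := by
  unfold lin
  rw [map_sum]
  refine Finset.sum_congr rfl fun i _ => ?_
  rw [map_mul, MvPolynomial.eval_C, MvPolynomial.eval_X]

theorem eval_pk (w ζ : V) (N m : ℕ) :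
    MvPolynomial.eval ζ (pk w N m) = (∑ i, (starRingEnd ℂ) (w i) * ζ i) ^ N *
      (1 / 2 * (1 + ∑ i, (starRingEnd ℂ) (w i) * ζ i)) ^ m := by
  unfold pk
  rw [map_mul, map_pow, map_pow, map_mul, map_add, map_one, MvPolynomial.eval_C, eval_lin]

theorem lam_re {w ζ : V} (hw : w ∈ S) (hζ : ζ ∈ S) :
    (∑ i, (starRingEnd ℂ) (w i) * ζ i).re = 1 - dd ζ w / 2 := by
  have h1 : ∑ i, ‖w i‖ ^ 2 = 1 := hw
  have h2 : ∑ i, ‖ζ i‖ ^ 2 = 1 := hζ
  have h3 : dd ζ w = ∑ i, (‖ζ i‖ ^ 2 + ‖w i‖ ^ 2 - 2 * ((starRingEnd ℂ) (w i) * ζ i).re) := by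
    unfold dd
    refine Finset.sum_congr rfl fun i _ => ?_
    rw [← Complex.normSq_eq_norm_sq, ← Complex.normSq_eq_norm_sq, ← Complex.normSq_eq_norm_sq,
      Complex.normSq_apply, Complex.normSq_apply, Complex.normSq_apply, Complex.mul_re,
      Complex.conj_re, Complex.conj_im, Complex.sub_re, Complex.sub_im]
    ring
  rw [Finset.sum_sub_distrib, Finset.sum_add_distrib, h1, h2, ← Finset.mul_sum,
    ← Complex.re_sum] at h3
  linarith

theorem lam_norm {w ζ : V} (hw : w ∈ S) (hζ : ζ ∈ S) :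
    ‖∑ i, (starRingEnd ℂ) (w i) * ζ i‖ ≤ 1 := by
  have h1 : ∑ i, ‖w i‖ ^ 2 = 1 := hw
  have h2 : ∑ i, ‖ζ i‖ ^ 2 = 1 := hζ
  refine (norm_sum_le _ _).trans ?_
  have h3 : ∀ i, ‖(starRingEnd ℂ) (w i) * ζ i‖ ≤ 1 / 2 * ‖w i‖ ^ 2 + 1 / 2 * ‖ζ i‖ ^ 2 := by
    intro i
    rw [norm_mul, RCLike.norm_conj]
    nlinarith [sq_nonneg (‖w i‖ - ‖ζ i‖)]
  refine (Finset.sum_le_sum fun i _ => h3 i).trans ?_
  rw [Finset.sum_add_distrib, ← Finset.mul_sum, ← Finset.mul_sum, h1, h2]
  norm_num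

theorem dd_nonneg (ζ w : V) : 0 ≤ dd ζ w := Finset.sum_nonneg fun _ _ => sq_nonneg _

theorem half_norm {w ζ : V} (hw : w ∈ S) (hζ : ζ ∈ S) :
    ‖1 / 2 * (1 + ∑ i, (starRingEnd ℂ) (w i) * ζ i)‖ ≤ Real.exp (-(dd ζ w / 8)) := by
  set l := ∑ i, (starRingEnd ℂ) (w i) * ζ i with hl
  have h1 : l.re = 1 - dd ζ w / 2 := lam_re hw hζ
  have h2 : ‖l‖ ≤ 1 := lam_norm hw hζ
  have h3 : ‖1 / 2 * (1 + l)‖ ^ 2 ≤ 1 - dd ζ w / 4 := by
    rw [norm_mul, mul_pow, ← Complex.normSq_eq_norm_sq (1 + l), Complex.normSq_apply]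
    have h4 : ‖l‖ ^ 2 ≤ 1 := by
      have := norm_nonneg l
      nlinarith
    rw [← Complex.normSq_eq_norm_sq, Complex.normSq_apply] at h4
    have h5 : ‖(1 / 2 : ℂ)‖ = 1 / 2 := by norm_num
    rw [h5]
    simp only [Complex.add_re, Complex.one_re, Complex.add_im, Complex.one_im, zero_add]
    nlinarith
  have h6 : 1 - dd ζ w / 4 ≤ Real.exp (-(dd ζ w / 8)) ^ 2 := by
    rw [← Real.exp_nat_mul]
    have h7 := Real.add_one_le_exp (-(dd ζ w / 4))
    have h8 : ((2 : ℕ) : ℝ) * -(dd ζ w / 8) = -(dd ζ w / 4) := by push_cast; ring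
    rw [h8]
    linarith
  exact (sq_le_sq₀ (norm_nonneg _) (Real.exp_pos _).le).1 (h3.trans h6)

theorem lin_hom (w : V) : (lin w).IsHomogeneous 1 := by
  unfold lin
  refine MvPolynomial.IsHomogeneous.sum _ _ _ fun i _ => ?_
  exact MvPolynomial.isHomogeneous_C_mul_X _ _

theorem hom_mul_zero {A Q : MvPolynomial (Fin 2) ℂ} {N : ℕ} (hA : A.IsHomogeneous N) {i : ℕ}
    (hi : i < N) : MvPolynomial.homogeneousComponent i (A * Q) = 0 := by
  ext d
  rw [MvPolynomial.coeff_homogeneousComponent, MvPolynomial.coeff_zero]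
  split_ifs with h
  · rw [MvPolynomial.coeff_mul]
    refine Finset.sum_eq_zero fun x hx => ?_
    rw [Finset.HasAntidiagonal.mem_antidiagonal] at hx
    have h1 : x.1.degree ≠ N := by
      intro h2
      have h3 : d.degree = x.1.degree + x.2.degree := by rw [← hx, map_add]
      omega
    rw [hA.coeff_eq_zero h1, zero_mul]
  · rfl

theorem r4 : R4 := by
  intro w N m hw hm
  refine ⟨fun ζ hζ => ?_, fun hNm ζ hζ hd => ?_, fun i hi => ?_⟩
  · rw [eval_pk, norm_mul, norm_pow, norm_pow]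
    have h1 := half_norm hw hζ
    have h2 := lam_norm hw hζ
    calc ‖∑ i, (starRingEnd ℂ) (w i) * ζ i‖ ^ N *
          ‖1 / 2 * (1 + ∑ i, (starRingEnd ℂ) (w i) * ζ i)‖ ^ m
        ≤ 1 ^ N * Real.exp (-(dd ζ w / 8)) ^ m := by
          refine mul_le_mul (pow_le_pow_left₀ (norm_nonneg _) h2 N)
            (pow_le_pow_left₀ (norm_nonneg _) h1 m) (by positivity) (by positivity)
      _ = _ := by
        rw [one_pow, one_mul, ← Real.exp_nat_mul]
        congr 1
        ring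
  · rw [eval_pk, norm_mul, norm_pow, norm_pow]
    set l := ∑ i, (starRingEnd ℂ) (w i) * ζ i with hl
    have h1 : l.re = 1 - dd ζ w / 2 := lam_re hw hζ
    have hm' : (1 : ℝ) ≤ m := by exact_mod_cast hm
    have hm0 : (0 : ℝ) < m := by linarith
    have hd0 := dd_nonneg ζ w
    have hd1 : 1 / (m : ℝ) ≤ 1 := (div_le_one hm0).2 hm'
    have h2 : 1 - 1 / (2 * m : ℝ) ≤ ‖l‖ := by
      refine le_trans ?_ (Complex.re_le_norm l)
      rw [h1]
      have : 1 / (2 * m : ℝ) = 1 / m / 2 := by field_simp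
      rw [this]
      linarith
    have h3 : 1 - 1 / (4 * m : ℝ) ≤ ‖1 / 2 * (1 + l)‖ := by
      have h4 : (1 / 2 * (1 + l) : ℂ).re = (1 + l.re) / 2 := by
        have : (1 / 2 : ℂ) = ((1 / 2 : ℝ) : ℂ) := by norm_num
        rw [this, Complex.re_ofReal_mul, Complex.add_re, Complex.one_re]
        ring
      refine le_trans ?_ (Complex.re_le_norm _)
      rw [h4, h1]
      have : 1 / (4 * m : ℝ) = 1 / m / 4 := by field_simp
      rw [this]
      linarith
    have hq1 : (0 : ℝ) ≤ 1 / (2 * m : ℝ) := by positivity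
    have hq2 : 1 / (2 * m : ℝ) ≤ 1 := by
      rw [div_le_one (by positivity)]
      linarith
    have hq3 : (0 : ℝ) ≤ 1 / (4 * m : ℝ) := by positivity
    have hq4 : 1 / (4 * m : ℝ) ≤ 1 := by
      rw [div_le_one (by positivity)]
      linarith
    have h5 : 1 / 2 ≤ ‖l‖ ^ N := by
      have h6 := one_add_mul_le_pow (a := -(1 / (2 * m : ℝ))) (by linarith) N
      have h7 : (1 + -(1 / (2 * m : ℝ))) ^ N ≤ ‖l‖ ^ N :=
        pow_le_pow_left₀ (by linarith) (by linarith) N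
      have h8 : (N : ℝ) * (1 / (2 * m : ℝ)) ≤ 1 / 2 := by
        have hN' : (N : ℝ) ≤ m := by exact_mod_cast hNm
        calc (N : ℝ) * (1 / (2 * m : ℝ)) ≤ (m : ℝ) * (1 / (2 * m : ℝ)) :=
              mul_le_mul_of_nonneg_right hN' hq1
          _ = 1 / 2 := by field_simp
      linarith
    have h9 : 3 / 4 ≤ ‖1 / 2 * (1 + l)‖ ^ m := by
      have h6 := one_add_mul_le_pow (a := -(1 / (4 * m : ℝ))) (by linarith) m
      have h7 : (1 + -(1 / (4 * m : ℝ))) ^ m ≤ ‖1 / 2 * (1 + l)‖ ^ m :=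
        pow_le_pow_left₀ (by linarith) (by linarith) m
      have h8 : (m : ℝ) * (1 / (4 * m : ℝ)) = 1 / 4 := by field_simp
      linarith
    calc (3 / 8 : ℝ) = 1 / 2 * (3 / 4) := by norm_num
      _ ≤ ‖l‖ ^ N * ‖1 / 2 * (1 + l)‖ ^ m :=
        mul_le_mul h5 h9 (by norm_num) (by positivity)
  · have h1 := (lin_hom w).pow N
    rw [one_mul] at h1
    exact hom_mul_zero h1 hi

theorem r5 : R5 := by
  classical
  intro W P
  induction W using Finset.induction_on with
  | empty => exact ⟨fun _ => 1, fun _ => Or.inl rfl, by simp⟩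
  | insert a W ha ih =>
    obtain ⟨ε, hε, hI⟩ := ih
    -- continuity of the functions involved
    have hG : Continuous (fun x : V => ∑ w ∈ W, (ε w : ℂ) * MvPolynomial.eval x (P w)) := by
      refine continuous_finsetSum _ fun w _ => continuous_const.mul (MvPolynomial.continuous_eval _)
    have hh : Continuous (fun x : V => MvPolynomial.eval x (P a)) := MvPolynomial.continuous_eval _
    have i1 : IntegrableOn (fun z => ‖(∑ w ∈ W, (ε w : ℂ) * MvPolynomial.eval (s z) (P w)) +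
        MvPolynomial.eval (s z) (P a)‖ ^ 2) B :=
      int_cont (fun x : V => ‖(∑ w ∈ W, (ε w : ℂ) * MvPolynomial.eval x (P w)) +
        MvPolynomial.eval x (P a)‖ ^ 2) ((hG.add hh).norm.pow 2)
    have i2 : IntegrableOn (fun z => ‖(∑ w ∈ W, (ε w : ℂ) * MvPolynomial.eval (s z) (P w)) -
        MvPolynomial.eval (s z) (P a)‖ ^ 2) B :=
      int_cont (fun x : V => ‖(∑ w ∈ W, (ε w : ℂ) * MvPolynomial.eval x (P w)) -
        MvPolynomial.eval x (P a)‖ ^ 2) ((hG.sub hh).norm.pow 2)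
    have i3 : IntegrableOn (fun z => ‖∑ w ∈ W, (ε w : ℂ) * MvPolynomial.eval (s z) (P w)‖ ^ 2) B :=
      int_cont (fun x : V => ‖∑ w ∈ W, (ε w : ℂ) * MvPolynomial.eval x (P w)‖ ^ 2) (hG.norm.pow 2)
    have i4 : IntegrableOn (fun z => ‖MvPolynomial.eval (s z) (P a)‖ ^ 2) B :=
      int_cont (fun x : V => ‖MvPolynomial.eval x (P a)‖ ^ 2) (hh.norm.pow 2)
    have hpar : (∫ z in B, ‖(∑ w ∈ W, (ε w : ℂ) * MvPolynomial.eval (s z) (P w)) +
        MvPolynomial.eval (s z) (P a)‖ ^ 2) +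
        (∫ z in B, ‖(∑ w ∈ W, (ε w : ℂ) * MvPolynomial.eval (s z) (P w)) -
        MvPolynomial.eval (s z) (P a)‖ ^ 2) =
        2 * ((∫ z in B, ‖∑ w ∈ W, (ε w : ℂ) * MvPolynomial.eval (s z) (P w)‖ ^ 2) +
          ∫ z in B, ‖MvPolynomial.eval (s z) (P a)‖ ^ 2) := by
      rw [← integral_add i1 i2, ← integral_add i3 i4, ← integral_const_mul]
      refine integral_congr_ae (Filter.Eventually.of_forall fun z => ?_)
      have := parallelogram_law_with_norm ℝ
        (∑ w ∈ W, (ε w : ℂ) * MvPolynomial.eval (s z) (P w)) (MvPolynomial.eval (s z) (P a))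
      simp only
      linarith
    have hnew : ∀ δ : ℝ, ∀ z : V, ∑ w ∈ insert a W, ((Function.update ε a δ w : ℝ) : ℂ) *
        MvPolynomial.eval (s z) (P w) = (δ : ℂ) * MvPolynomial.eval (s z) (P a) +
          ∑ w ∈ W, (ε w : ℂ) * MvPolynomial.eval (s z) (P w) := by
      intro δ z
      rw [Finset.sum_insert ha, Function.update_self]
      congr 1
      refine Finset.sum_congr rfl fun w hw => ?_
      have hwa : w ≠ a := by
        rintro rfl
        exact ha hw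
      rw [Function.update_of_ne hwa]
    have hsgn : ∀ δ : ℝ, (δ = 1 ∨ δ = -1) → ∀ w, Function.update ε a δ w = 1 ∨
        Function.update ε a δ w = -1 := by
      intro δ hδ w
      by_cases h : w = a
      · rw [h, Function.update_self]
        exact hδ
      · rw [Function.update_of_ne h]
        exact hε w
    rw [Finset.sum_insert ha]
    by_cases hc : (∫ z in B, ‖∑ w ∈ W, (ε w : ℂ) * MvPolynomial.eval (s z) (P w)‖ ^ 2) +
          (∫ z in B, ‖MvPolynomial.eval (s z) (P a)‖ ^ 2) ≤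
        ∫ z in B, ‖(∑ w ∈ W, (ε w : ℂ) * MvPolynomial.eval (s z) (P w)) +
        MvPolynomial.eval (s z) (P a)‖ ^ 2
    · refine ⟨Function.update ε a 1, hsgn 1 (Or.inl rfl), ?_⟩
      simp_rw [hnew]
      have e : ∀ z : V, ((1 : ℝ) : ℂ) * MvPolynomial.eval (s z) (P a) +
          ∑ w ∈ W, (ε w : ℂ) * MvPolynomial.eval (s z) (P w) =
          (∑ w ∈ W, (ε w : ℂ) * MvPolynomial.eval (s z) (P w)) +
            MvPolynomial.eval (s z) (P a) := by
        intro z
        push_cast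
        ring
      simp_rw [e]
      linarith
    · refine ⟨Function.update ε a (-1), hsgn (-1) (Or.inr rfl), ?_⟩
      simp_rw [hnew]
      have e : ∀ z : V, ((-1 : ℝ) : ℂ) * MvPolynomial.eval (s z) (P a) +
          ∑ w ∈ W, (ε w : ℂ) * MvPolynomial.eval (s z) (P w) =
          (∑ w ∈ W, (ε w : ℂ) * MvPolynomial.eval (s z) (P w)) -
            MvPolynomial.eval (s z) (P a) := by
        intro z
        push_cast
        ring
      simp_rw [e]
      linarith

end Pool.Agent.Q73.RH
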