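import Pool.Agent.Q149.RH.Base

/-!
# Project RH: R6 (the basic step)
-/

namespace Pool.Agent.Q73.RH

open MeasureTheory Pool.Agent.Q149.RH

namespace R6

lemma dist_lt_of_dd {z w : V} {δ : ℝ} (hδ : 0 < δ) (h : dd z w < δ ^ 2) : dist z w < δ := by
  rw [dist_pi_lt_iff hδ]
  intro i
  rw [dist_eq_norm]
  have h1 : ‖z i - w i‖ ^ 2 ≤ dd z w := Finset.single_le_sum (f := fun i => ‖z i - w i‖ ^ 2)
    (fun _ _ => sq_nonneg _) (Finset.mem_univ i)
  exact lt_of_pow_lt_pow_left₀ 2 hδ.le (lt_of_le_of_lt h1 h)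

lemma dd_nonneg (z w : V) : 0 ≤ dd z w := Finset.sum_nonneg fun _ _ => sq_nonneg _

/-- comparison of the values of a positive continuous function on the sphere -/
lemma exists_delta {φ : V → ℝ} (hφ : Continuous φ) (hpos : ∀ ζ ∈ S, 0 < φ ζ) :
    ∃ a b δ : ℝ, 0 < a ∧ 0 < b ∧ 0 < δ ∧ (∀ ζ ∈ S, a ≤ φ ζ ∧ φ ζ ≤ b) ∧
      ∀ ζ ∈ S, ∀ w ∈ S, dd ζ w < δ ^ 2 → φ w ≤ 2 * φ ζ ∧ φ ζ ≤ 2 * φ w := by
  have hne : S.Nonempty := by
    refine ⟨fun i => if i = 0 then 1 else 0, ?_⟩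
    show ∑ i : Fin 2, ‖(if i = 0 then (1 : ℂ) else 0)‖ ^ 2 = 1
    simp [Fin.sum_univ_two]
  obtain ⟨x, hx, hxa⟩ := isCompact_S.exists_isMinOn hne hφ.continuousOn
  obtain ⟨y, hy, hyb⟩ := isCompact_S.exists_isMaxOn hne hφ.continuousOn
  have ha := hpos x hx
  have huc := isCompact_S.uniformContinuousOn_of_continuous hφ.continuousOn
  rw [Metric.uniformContinuousOn_iff] at huc
  obtain ⟨δ, hδ, hδ'⟩ := huc (φ x / 2) (by linarith)
  refine ⟨φ x, φ y, δ, ha, hpos y hy, hδ, fun ζ hζ => ⟨hxa hζ, hyb hζ⟩, ?_⟩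
  intro ζ hζ w hw h
  have h1 := hδ' ζ hζ w hw (dist_lt_of_dd hδ h)
  rw [Real.dist_eq, abs_lt] at h1
  have h2 : φ x ≤ φ ζ := hxa hζ
  have h3 : φ x ≤ φ w := hxa hw
  constructor <;> linarith [h1.1, h1.2]

end R6

open R6 in
/-- **R6** (basic step). -/
theorem r6 : R3 → R4 → R5 → R6 := by
  rintro ⟨C, hC, h3⟩ h4 h5
  refine ⟨9 / (1024 * C ^ 2), by positivity, ?_⟩
  intro φ hφ hpos N
  obtain ⟨a, b, δ, ha, hb, hδ, hab, hcmp⟩ := exists_delta hφ hpos
  -- the choice of `k`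
  obtain ⟨k, hk1, hkN, hkδ, hkb⟩ : ∃ k : ℕ, 1 ≤ k ∧ N ≤ k ^ 2 ∧ 1 / (k : ℝ) ^ 2 ≤ δ ^ 2 ∧
      b * Real.exp (-((k : ℝ) ^ 2 * δ ^ 2 / 16)) ≤ a := by
    have t1 : Filter.Tendsto (fun k : ℕ => (k : ℝ) ^ 2) Filter.atTop Filter.atTop :=
      (Filter.tendsto_pow_atTop two_ne_zero).comp tendsto_natCast_atTop_atTop
    have t2 : Filter.Tendsto (fun k : ℕ => 1 / (k : ℝ) ^ 2) Filter.atTop (nhds 0) := by
      simp only [one_div]
      exact tendsto_inv_atTop_zero.comp t1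
    have t3 : Filter.Tendsto (fun k : ℕ => b * Real.exp (-((k : ℝ) ^ 2 * δ ^ 2 / 16)))
        Filter.atTop (nhds (b * 0)) := by
      apply Filter.Tendsto.const_mul
      apply Real.tendsto_exp_neg_atTop_nhds_zero.comp
      apply Filter.Tendsto.atTop_div_const (by norm_num)
      exact t1.atTop_mul_const (by positivity)
    rw [mul_zero] at t3
    have e1 := t2.eventually (Iic_mem_nhds (show (0 : ℝ) < δ ^ 2 by positivity))
    have e2 := t3.eventually (Iic_mem_nhds ha)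
    obtain ⟨k, ⟨⟨h1, h2⟩, h3⟩, h4⟩ :=
      (((e1.and e2).and (Filter.eventually_ge_atTop 1)).and (Filter.eventually_ge_atTop N)).exists
    refine ⟨k, h3, ?_, h1, h2⟩
    nlinarith
  have hk0 : (0 : ℝ) < (k : ℝ) ^ 2 := by
    have : (0 : ℝ) < k := by exact_mod_cast hk1
    positivity
  have hcast : ((k ^ 2 : ℕ) : ℝ) = (k : ℝ) ^ 2 := by push_cast; rfl
  obtain ⟨W, hWS, hWn, hWp⟩ := h3 k hk1
  have hm1 : 1 ≤ k ^ 2 := Nat.one_le_pow _ _ hk1
  obtain ⟨ε, hε, hsum⟩ := h5 W (fun w => MvPolynomial.C ((φ w : ℝ) : ℂ) * pk w N (k ^ 2))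
  have hεn : ∀ w, ‖((ε w : ℝ) : ℂ)‖ = 1 := by
    intro w
    rw [Complex.norm_real]
    rcases hε w with h | h <;> rw [h] <;> simp
  set Q : MvPolynomial (Fin 2) ℂ := ∑ w ∈ W, MvPolynomial.C ((ε w : ℝ) : ℂ) *
    (MvPolynomial.C ((φ w : ℝ) : ℂ) * pk w N (k ^ 2)) with hQ
  have hQe : ∀ ζ, MvPolynomial.eval ζ Q = ∑ w ∈ W, ((ε w : ℝ) : ℂ) *
      MvPolynomial.eval ζ (MvPolynomial.C ((φ w : ℝ) : ℂ) * pk w N (k ^ 2)) := by
    intro ζ
    rw [hQ, map_sum]
    apply Finset.sum_congr rfl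
    intro w _
    rw [map_mul, MvPolynomial.eval_C]
  refine ⟨MvPolynomial.C ((1 / (2 * C) : ℝ) : ℂ) * Q, ?_, ?_, ?_⟩
  · intro i hi
    rw [MvPolynomial.homogeneousComponent_C_mul, hQ, map_sum, Finset.sum_eq_zero, mul_zero]
    intro w hw
    rw [MvPolynomial.homogeneousComponent_C_mul, MvPolynomial.homogeneousComponent_C_mul,
      (h4 w N (k ^ 2) (hWS w hw) hm1).2.2 i hi, mul_zero, mul_zero]
  · intro ζ hζ
    have hφζ := hpos ζ hζ
    have hb1 : ∀ w ∈ W, ‖((ε w : ℝ) : ℂ) *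
        MvPolynomial.eval ζ (MvPolynomial.C ((φ w : ℝ) : ℂ) * pk w N (k ^ 2))‖ ≤
        2 * φ ζ * Real.exp (-((k : ℝ) ^ 2 * dd ζ w / 16)) := by
      intro w hw
      have hwS := hWS w hw
      have hφw := hpos w hwS
      rw [norm_mul, hεn, one_mul, map_mul, MvPolynomial.eval_C, norm_mul, Complex.norm_real,
        Real.norm_of_nonneg hφw.le]
      have h1 := (h4 w N (k ^ 2) hwS hm1).1 ζ hζ
      rw [hcast] at h1
      set D := dd ζ w with hD
      have hD0 : 0 ≤ D := dd_nonneg ζ w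
      have h2 : Real.exp (-((k : ℝ) ^ 2 * D / 8)) =
          Real.exp (-((k : ℝ) ^ 2 * D / 16)) * Real.exp (-((k : ℝ) ^ 2 * D / 16)) := by
        rw [← Real.exp_add]
        congr 1
        ring
      have hE0 := Real.exp_pos (-((k : ℝ) ^ 2 * D / 16))
      have hE1 : Real.exp (-((k : ℝ) ^ 2 * D / 16)) ≤ 1 := by
        apply Real.exp_le_one_iff.2
        have : 0 ≤ (k : ℝ) ^ 2 * D := mul_nonneg hk0.le hD0
        linarith
      rw [h2] at h1
      have h3 : φ w * ‖MvPolynomial.eval ζ (pk w N (k ^ 2))‖ ≤ φ w *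
          (Real.exp (-((k : ℝ) ^ 2 * D / 16)) * Real.exp (-((k : ℝ) ^ 2 * D / 16))) :=
        mul_le_mul_of_nonneg_left h1 hφw.le
      refine h3.trans ?_
      rw [← mul_assoc]
      apply mul_le_mul_of_nonneg_right _ hE0.le
      by_cases hd : D < δ ^ 2
      · have h4 := (hcmp ζ hζ w hwS hd).1
        calc φ w * Real.exp (-((k : ℝ) ^ 2 * D / 16)) ≤ φ w * 1 :=
              mul_le_mul_of_nonneg_left hE1 hφw.le
          _ ≤ 2 * φ ζ := by rw [mul_one]; exact h4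
      · have h4 : Real.exp (-((k : ℝ) ^ 2 * D / 16)) ≤
            Real.exp (-((k : ℝ) ^ 2 * δ ^ 2 / 16)) := by
          apply Real.exp_le_exp.2
          have : (k : ℝ) ^ 2 * δ ^ 2 ≤ (k : ℝ) ^ 2 * D :=
            mul_le_mul_of_nonneg_left (not_lt.1 hd) hk0.le
          linarith
        calc φ w * Real.exp (-((k : ℝ) ^ 2 * D / 16)) ≤
              b * Real.exp (-((k : ℝ) ^ 2 * δ ^ 2 / 16)) :=
              mul_le_mul (hab w hwS).2 h4 hE0.le hb.le
          _ ≤ a := hkb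
          _ ≤ φ ζ := (hab ζ hζ).1
          _ ≤ 2 * φ ζ := by linarith
    have hb2 : ‖MvPolynomial.eval ζ Q‖ ≤ 2 * φ ζ * C := by
      rw [hQe]
      refine (norm_sum_le _ _).trans ((Finset.sum_le_sum hb1).trans ?_)
      rw [← Finset.mul_sum]
      exact mul_le_mul_of_nonneg_left (hWp ζ hζ) (by linarith)
    rw [map_mul, MvPolynomial.eval_C, norm_mul, Complex.norm_real,
      Real.norm_of_nonneg (by positivity)]
    calc 1 / (2 * C) * ‖MvPolynomial.eval ζ Q‖ ≤ 1 / (2 * C) * (2 * φ ζ * C) :=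
          mul_le_mul_of_nonneg_left hb2 (by positivity)
      _ = φ ζ := by field_simp
  · -- the lower bound
    have l1 : ∫ z in B, (9 / 256) * φ (s z) ^ 2 ≤ ∑ w ∈ W, ∫ z in B,
        ‖MvPolynomial.eval (s z) (MvPolynomial.C ((φ w : ℝ) : ℂ) * pk w N (k ^ 2))‖ ^ 2 := by
      have hint : ∀ w ∈ W, Integrable (fun z => ‖MvPolynomial.eval (s z)
          (MvPolynomial.C ((φ w : ℝ) : ℂ) * pk w N (k ^ 2))‖ ^ 2) (volume.restrict B) := by
        intro w _
        exact int_of_cont (f := fun z : V => ‖MvPolynomial.eval z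
          (MvPolynomial.C ((φ w : ℝ) : ℂ) * pk w N (k ^ 2))‖ ^ 2) ((continuous_eval _).norm.pow 2)
      rw [← integral_finsetSum W hint]
      apply integral_mono_ae
      · exact int_of_cont (f := fun z : V => (9 / 256) * φ z ^ 2)
          (continuous_const.mul (hφ.pow 2))
      · exact integrable_finsetSum W hint
      · filter_upwards [ae_ne_zero] with z hz
        have hs := s_mem hz
        obtain ⟨w, hw, hwd⟩ := hWn (s z) hs
        have hwS := hWS w hw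
        have hφw := hpos w hwS
        have h1 := (h4 w N (k ^ 2) hwS hm1).2.1 hkN (s z) hs (by rw [hcast]; exact hwd.le)
        have h2 := (hcmp (s z) hs w hwS (lt_of_lt_of_le hwd hkδ)).2
        have h3 := hpos (s z) hs
        refine le_trans ?_ (Finset.single_le_sum (f := fun w => ‖MvPolynomial.eval (s z)
          (MvPolynomial.C ((φ w : ℝ) : ℂ) * pk w N (k ^ 2))‖ ^ 2) (fun _ _ => sq_nonneg _) hw)
        rw [map_mul, MvPolynomial.eval_C, norm_mul, Complex.norm_real,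
          Real.norm_of_nonneg hφw.le]
        have h6 : φ (s z) / 2 * (3 / 8) ≤ φ w * ‖MvPolynomial.eval (s z) (pk w N (k ^ 2))‖ :=
          mul_le_mul (by linarith) h1 (by norm_num) hφw.le
        have h7 : (φ (s z) / 2 * (3 / 8)) ^ 2 ≤
            (φ w * ‖MvPolynomial.eval (s z) (pk w N (k ^ 2))‖) ^ 2 :=
          pow_le_pow_left₀ (by positivity) h6 2
        calc 9 / 256 * φ (s z) ^ 2 = (φ (s z) / 2 * (3 / 8)) ^ 2 := by ring
          _ ≤ _ := h7
    have l2 : ∫ z in B, ‖MvPolynomial.eval (s z) (MvPolynomial.C ((1 / (2 * C) : ℝ) : ℂ) * Q)‖ ^ 2 =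
        (1 / (2 * C)) ^ 2 * ∫ z in B, ‖∑ w ∈ W, ((ε w : ℝ) : ℂ) *
          MvPolynomial.eval (s z) (MvPolynomial.C ((φ w : ℝ) : ℂ) * pk w N (k ^ 2))‖ ^ 2 := by
      rw [← integral_const_mul]
      congr 1
      funext z
      rw [← hQe, map_mul, MvPolynomial.eval_C, norm_mul, Complex.norm_real,
        Real.norm_of_nonneg (by positivity), mul_pow]
    rw [l2]
    rw [integral_const_mul] at l1
    have l3 := l1.trans hsum
    calc 9 / (1024 * C ^ 2) * ∫ z in B, φ (s z) ^ 2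
        = (1 / (2 * C)) ^ 2 * (9 / 256 * ∫ z in B, φ (s z) ^ 2) := by
          field_simp
          ring
      _ ≤ _ := mul_le_mul_of_nonneg_left l3 (by positivity)

end Pool.Agent.Q73.RH
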