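import Pool.Agent.Q149.RH.Base

/-!
# Project RH: R7 (approximate inner polynomials)
-/

namespace Pool.Agent.Q73.RH

open MeasureTheory Pool.Agent.Q149.RH

namespace R7

/-- admissible polynomials -/
def Adm (F : MvPolynomial (Fin 2) ℂ) : Prop :=
  MvPolynomial.constantCoeff F = 0 ∧ ∀ ζ ∈ S, ‖MvPolynomial.eval ζ F‖ < 1

lemma eval_s_zero {F : MvPolynomial (Fin 2) ℂ} (hF : MvPolynomial.constantCoeff F = 0) :
    MvPolynomial.eval (s 0) F = 0 := by
  rw [s_zero]
  have : MvPolynomial.eval (0 : V) F = MvPolynomial.constantCoeff F := by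
    rw [← MvPolynomial.eval_zero]
  rw [this, hF]

lemma Adm.le {F : MvPolynomial (Fin 2) ℂ} (hF : Adm F) (z : V) :
    ‖MvPolynomial.eval (s z) F‖ ≤ 1 := by
  by_cases hz : z = 0
  · rw [hz, eval_s_zero hF.1, norm_zero]
    exact zero_le_one
  · exact (hF.2 _ (s_mem hz)).le

lemma int_norm (F : MvPolynomial (Fin 2) ℂ) :
    Integrable (fun z => ‖MvPolynomial.eval (s z) F‖) (volume.restrict B) :=
  int_of_cont (f := fun z : V => ‖MvPolynomial.eval z F‖) (continuous_eval F).norm

lemma int_sq (F : MvPolynomial (Fin 2) ℂ) :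
    Integrable (fun z => ‖MvPolynomial.eval (s z) F‖ ^ 2) (volume.restrict B) :=
  int_of_cont (f := fun z : V => ‖MvPolynomial.eval z F‖ ^ 2) ((continuous_eval F).norm.pow 2)

lemma int_cross (F G : MvPolynomial (Fin 2) ℂ) :
    Integrable (fun z => MvPolynomial.eval (s z) F *
      (starRingEnd ℂ) (MvPolynomial.eval (s z) G)) (volume.restrict B) :=
  int_of_cont (f := fun z : V => MvPolynomial.eval z F *
    (starRingEnd ℂ) (MvPolynomial.eval z G))
    ((continuous_eval F).mul (Complex.continuous_conj.comp (continuous_eval G)))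

lemma norm_add_sq (a b : ℂ) :
    ‖a + b‖ ^ 2 = ‖a‖ ^ 2 + ‖b‖ ^ 2 + 2 * (a * (starRingEnd ℂ) b).re := by
  rw [← Complex.normSq_eq_norm_sq, ← Complex.normSq_eq_norm_sq, ← Complex.normSq_eq_norm_sq,
    Complex.normSq_add]

lemma int_add_sq (F P : MvPolynomial (Fin 2) ℂ)
    (h0 : ∫ z in B, MvPolynomial.eval (s z) F * (starRingEnd ℂ) (MvPolynomial.eval (s z) P) = 0) :
    ∫ z in B, ‖MvPolynomial.eval (s z) (F + P)‖ ^ 2 =
      (∫ z in B, ‖MvPolynomial.eval (s z) F‖ ^ 2) + ∫ z in B, ‖MvPolynomial.eval (s z) P‖ ^ 2 := by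
  have h1 : ∀ z, ‖MvPolynomial.eval (s z) (F + P)‖ ^ 2 =
      ‖MvPolynomial.eval (s z) F‖ ^ 2 + ‖MvPolynomial.eval (s z) P‖ ^ 2 +
      2 * (MvPolynomial.eval (s z) F * (starRingEnd ℂ) (MvPolynomial.eval (s z) P)).re := by
    intro z
    rw [map_add, norm_add_sq]
  simp only [h1]
  have hre : Integrable (fun z => (MvPolynomial.eval (s z) F *
      (starRingEnd ℂ) (MvPolynomial.eval (s z) P)).re) (volume.restrict B) :=
    (int_cross F P).re
  have hsum : Integrable (fun z => ‖MvPolynomial.eval (s z) F‖ ^ 2 +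
      ‖MvPolynomial.eval (s z) P‖ ^ 2) (volume.restrict B) := (int_sq F).add (int_sq P)
  rw [integral_add hsum (hre.const_mul 2),
    integral_add (int_sq F) (int_sq P), integral_const_mul]
  have h2 : ∫ z in B, (MvPolynomial.eval (s z) F *
      (starRingEnd ℂ) (MvPolynomial.eval (s z) P)).re = 0 := by
    have h3 := integral_re (int_cross F P)
    have h4 : ∫ z in B, (MvPolynomial.eval (s z) F *
      (starRingEnd ℂ) (MvPolynomial.eval (s z) P)).re = (∫ z in B, MvPolynomial.eval (s z) F *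
      (starRingEnd ℂ) (MvPolynomial.eval (s z) P)).re := h3
    rw [h4, h0, Complex.zero_re]
  rw [h2, mul_zero, add_zero]

end R7

open R7 in
/-- **R7** (approximate inner polynomials). -/
theorem r7 : R2 → R6 → R7 := by
  rintro h2 ⟨c, hc, h6⟩ ε hε
  by_contra hcon
  have hbad : ∀ F : MvPolynomial (Fin 2) ℂ, Adm F →
      ε < ∫ z in B, (1 - ‖MvPolynomial.eval (s z) F‖) := by
    intro F hF
    by_contra h
    exact hcon ⟨F, hF.1, hF.2, not_lt.1 h⟩
  set v : ℝ := ((volume : Measure V) B).toReal with hv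
  have hv0 : 0 ≤ v := ENNReal.toReal_nonneg
  have hconst : ∀ a : ℝ, ∫ z in B, a = v * a := by
    intro a
    rw [setIntegral_const, smul_eq_mul]
    rfl
  set η : ℝ := ε / (v + 1) with hη
  have hη0 : 0 < η := div_pos hε (by linarith)
  set κ : ℝ := c / 4 * (η * ε) with hκ
  have hκ0 : 0 < κ := by positivity
  -- the step
  have step : ∀ F : MvPolynomial (Fin 2) ℂ, Adm F → ∃ F', Adm F' ∧
      (∫ z in B, ‖MvPolynomial.eval (s z) F‖ ^ 2) + κ ≤
        ∫ z in B, ‖MvPolynomial.eval (s z) F'‖ ^ 2 := by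
    intro F hF
    obtain ⟨P, hP1, hP2, hP3⟩ := h6 (fun z => (1 - ‖MvPolynomial.eval z F‖) / 2)
      ((continuous_const.sub (continuous_eval F).norm).div_const 2)
      (fun ζ hζ => by have := hF.2 ζ hζ; linarith) (F.totalDegree + 1)
    have hP0 : MvPolynomial.constantCoeff P = 0 := by
      have h1 := hP1 0 (by omega)
      rw [MvPolynomial.homogeneousComponent_zero] at h1
      have h3 : MvPolynomial.coeff 0 P = 0 := by
        have := congrArg (MvPolynomial.coeff 0) h1
        simpa using this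
      rw [MvPolynomial.constantCoeff_eq, h3]
    refine ⟨F + P, ⟨by rw [map_add, hF.1, hP0, add_zero], fun ζ hζ => ?_⟩, ?_⟩
    · rw [map_add]
      refine lt_of_le_of_lt (norm_add_le _ _) ?_
      have h3 := hP2 ζ hζ
      have h4 := hF.2 ζ hζ
      linarith
    · rw [int_add_sq F P (h2 F P (F.totalDegree + 1) (Nat.lt_succ_self _) hP1)]
      have h5 : κ ≤ c * ∫ z in B, ((1 - ‖MvPolynomial.eval (s z) F‖) / 2) ^ 2 := by
        have h7 := hbad F hF
        have h8 : ∫ z in B, (η / 2 * (1 - ‖MvPolynomial.eval (s z) F‖) - η ^ 2 / 4) ≤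
            ∫ z in B, ((1 - ‖MvPolynomial.eval (s z) F‖) / 2) ^ 2 := by
          apply integral_mono
          · exact (((integrable_const 1).sub (int_norm F)).const_mul _).sub (integrable_const _)
          · exact int_of_cont (f := fun z : V => ((1 - ‖MvPolynomial.eval z F‖) / 2) ^ 2)
              (((continuous_const.sub (continuous_eval F).norm).div_const 2).pow 2)
          · intro z
            simp only
            nlinarith [sq_nonneg ((1 - ‖MvPolynomial.eval (s z) F‖) - η)]
        have h9 : ∫ z in B, (η / 2 * (1 - ‖MvPolynomial.eval (s z) F‖) - η ^ 2 / 4) =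
            η / 2 * (∫ z in B, (1 - ‖MvPolynomial.eval (s z) F‖)) - v * (η ^ 2 / 4) := by
          have hi : Integrable (fun z => η / 2 * (1 - ‖MvPolynomial.eval (s z) F‖))
              (volume.restrict B) := ((integrable_const 1).sub (int_norm F)).const_mul _
          rw [integral_sub hi (integrable_const _), integral_const_mul, hconst]
        rw [h9] at h8
        have h10 : v * η ≤ ε := by
          rw [hη, ← mul_div_assoc, div_le_iff₀ (by linarith)]
          nlinarith
        have h11 : η * ε / 4 ≤ η / 2 * (∫ z in B, (1 - ‖MvPolynomial.eval (s z) F‖)) -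
            v * (η ^ 2 / 4) := by
          have h12 : η / 2 * ε ≤ η / 2 * (∫ z in B, (1 - ‖MvPolynomial.eval (s z) F‖)) :=
            mul_le_mul_of_nonneg_left h7.le (by positivity)
          have h13 : v * (η ^ 2 / 4) ≤ ε * η / 4 := by nlinarith
          nlinarith
        calc κ = c * (η * ε / 4) := by rw [hκ]; ring
          _ ≤ _ := mul_le_mul_of_nonneg_left (h11.trans h8) hc.le
      have h6' := h5.trans hP3
      linarith
  have iter : ∀ n : ℕ, ∃ F : MvPolynomial (Fin 2) ℂ, Adm F ∧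
      (n : ℝ) * κ ≤ ∫ z in B, ‖MvPolynomial.eval (s z) F‖ ^ 2 := by
    intro n
    induction n with
    | zero =>
      refine ⟨0, ⟨by simp, fun ζ _ => by simp⟩, ?_⟩
      simp
    | succ n ih =>
      obtain ⟨F, hF, hn⟩ := ih
      obtain ⟨F', hF', h⟩ := step F hF
      refine ⟨F', hF', ?_⟩
      push_cast
      linarith
  obtain ⟨n, hn⟩ := exists_nat_gt (v / κ)
  obtain ⟨F, hF, hFn⟩ := iter n
  have h3 : ∫ z in B, ‖MvPolynomial.eval (s z) F‖ ^ 2 ≤ v := by
    have h4 : ∫ z in B, ‖MvPolynomial.eval (s z) F‖ ^ 2 ≤ ∫ z in B, (1 : ℝ) := by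
      apply integral_mono (int_sq F) (integrable_const _)
      intro z
      simp only
      exact pow_le_one₀ (norm_nonneg _) (hF.le z)
    rw [hconst, mul_one] at h4
    exact h4
  rw [div_lt_iff₀ hκ0] at hn
  linarith

end Pool.Agent.Q73.RH
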