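import Pool.Agent.Q73.RH.Stm

/-!
# Project RH, job R8 (helper176): central binomial coefficients
-/

set_option autoImplicit false

namespace Pool.Agent.Q73.RH

namespace R8aux

open Finset

theorem bk_zero : bk 0 = 1 := by
  unfold bk
  simp

theorem bk_pos (k : ℕ) : 0 < bk k := by
  unfold bk
  have h := Nat.centralBinom_pos k
  positivity

theorem bk_le (k : ℕ) : bk k ≤ 1 := by
  unfold bk
  rw [div_le_one (by positivity)]
  exact_mod_cast Nat.centralBinom_le_four_pow k

theorem bk_succ (k : ℕ) : ((k : ℝ) + 1) * bk (k + 1) = ((k : ℝ) + 1 / 2) * bk k := by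
  unfold bk
  have h : ((k : ℝ) + 1) * (Nat.centralBinom (k + 1) : ℝ) = 2 * (2 * k + 1) * Nat.centralBinom k := by
    exact_mod_cast Nat.succ_mul_centralBinom_succ k
  rw [pow_succ]
  have h4 : (4 : ℝ) ^ k ≠ 0 := by positivity
  field_simp
  linear_combination 2 * h

noncomputable def c (n : ℕ) : ℝ := ∑ q ∈ antidiagonal n, bk q.1 * bk q.2

noncomputable def D (n : ℕ) : ℝ := ∑ q ∈ antidiagonal n, (q.1 : ℝ) * (bk q.1 * bk q.2)

theorem two_D (n : ℕ) : 2 * D n = n * c n := by
  have h1 : D n = ∑ q ∈ antidiagonal n, (q.2 : ℝ) * (bk q.1 * bk q.2) := by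
    unfold D
    rw [← Nat.sum_antidiagonal_swap]
    refine sum_congr rfl fun q _ => ?_
    simp only [Prod.fst_swap, Prod.snd_swap]
    ring
  have h2 : D n + D n = n * c n := by
    nth_rw 2 [h1]
    unfold D c
    rw [← sum_add_distrib, mul_sum]
    refine sum_congr rfl fun q hq => ?_
    have h3 : (n : ℝ) = q.1 + q.2 := by
      rw [← mem_antidiagonal.mp hq]
      push_cast
      rfl
    rw [h3]
    ring
  rw [two_mul, h2]

theorem D_succ (n : ℕ) : D (n + 1) = D n + c n / 2 := by
  have h1 : D (n + 1) = ∑ q ∈ antidiagonal n, ((q.1 : ℝ) + 1) * (bk (q.1 + 1) * bk q.2) := by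
    unfold D
    rw [Nat.sum_antidiagonal_succ]
    push_cast
    rw [zero_mul, zero_add]
  rw [h1]
  unfold D c
  rw [sum_div, ← sum_add_distrib]
  refine sum_congr rfl fun q _ => ?_
  rw [← mul_assoc, bk_succ]
  ring

theorem c_one (n : ℕ) : c n = 1 := by
  induction n with
  | zero =>
    unfold c
    simp [bk_zero]
  | succ n ih =>
    have h1 := two_D (n + 1)
    have h2 := two_D n
    have h3 := D_succ n
    rw [ih] at h2 h3
    push_cast at h1
    have h4 : ((n : ℝ) + 1) * c (n + 1) = ((n : ℝ) + 1) * 1 := by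
      rw [← h1, h3]
      linarith
    exact mul_left_cancel₀ (by positivity) h4

theorem bk_sq (k : ℕ) : 1 / (4 * ((k : ℝ) + 1)) ≤ bk (k + 1) ^ 2 := by
  induction k with
  | zero =>
    have h := bk_succ 0
    rw [bk_zero] at h
    norm_num at h
    rw [h]
    norm_num
  | succ k ih =>
    have h := bk_succ (k + 1)
    push_cast at h ⊢
    have h1 : bk (k + 1 + 1) = ((k : ℝ) + 1 + 1 / 2) / ((k : ℝ) + 1 + 1) * bk (k + 1) := by
      rw [div_mul_eq_mul_div, eq_div_iff (by positivity)]
      linarith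
    rw [h1, mul_pow]
    refine le_trans ?_ (mul_le_mul_of_nonneg_left ih (by positivity))
    rw [div_pow, div_mul_div_comm, div_le_div_iff₀ (by positivity) (by positivity)]
    nlinarith [sq_nonneg (k : ℝ), (Nat.cast_nonneg k : (0 : ℝ) ≤ k)]

end R8aux

open R8aux in
theorem r8 : R8 := by
  refine ⟨fun k => ?_, fun k => ⟨bk_pos k, bk_le k⟩, fun M => ?_⟩
  · have h := c_one k
    unfold c at h
    rw [Finset.Nat.sum_antidiagonal_eq_sum_range_succ (fun i j => bk i * bk j)] at h
    exact h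
  · obtain ⟨K, hK⟩ := (Real.tendsto_sum_range_one_div_nat_succ_atTop.eventually
      (Filter.eventually_ge_atTop (4 * M))).exists
    refine ⟨K + 1, ?_⟩
    rw [Finset.sum_range_succ']
    have h1 : ∑ i ∈ Finset.range K, (1 / 4) * (1 / ((i : ℝ) + 1)) ≤
        ∑ i ∈ Finset.range K, bk (i + 1) ^ 2 := by
      refine Finset.sum_le_sum fun i _ => ?_
      refine le_trans (le_of_eq ?_) (bk_sq i)
      field_simp
    rw [← Finset.mul_sum] at h1
    have h2 : 0 ≤ bk 0 ^ 2 := sq_nonneg _
    linarith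

end Pool.Agent.Q73.RH
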