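import Pool.Agent.Q73.RH.Stm

/-!
# Project RH: R9 (the one variable polynomial)
-/

namespace Pool.Agent.Q73.RH

namespace R9

open Finset

/-- the coefficients of the square -/
lemma coeffs {b : ℕ → ℝ} {r : ℝ} (hr0 : 0 ≤ r) (hb0 : ∀ k, 0 ≤ b k)
    (hb : ∀ k, ∑ i ∈ range (k + 1), b i * b (k - i) = 1) (K : ℕ) (x : ℂ) :
    ∃ g : ℕ → ℝ, (∀ k ≤ K, g k = r ^ k) ∧ (∀ k, 0 ≤ g k ∧ g k ≤ r ^ k) ∧
      (∑ k ∈ range (K + 1), ((b k * r ^ k : ℝ) : ℂ) * x ^ k) ^ 2 =
        ∑ k ∈ range (2 * K + 1), (g k : ℂ) * x ^ k := by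
  classical
  set Q := range (K + 1) ×ˢ range (K + 1) with hQ
  set a : ℕ → ℝ := fun k => b k * r ^ k with ha
  have ha0 : ∀ k, 0 ≤ a k := fun k => mul_nonneg (hb0 k) (pow_nonneg hr0 k)
  have hsub : ∀ k, Q.filter (fun p => p.1 + p.2 = k) ⊆ antidiagonal k := by
    intro k p hp
    rw [mem_filter] at hp
    rw [Finset.HasAntidiagonal.mem_antidiagonal]
    exact hp.2
  have hant : ∀ k, ∑ p ∈ antidiagonal k, a p.1 * a p.2 = r ^ k := by
    intro k
    have h1 : ∀ p ∈ antidiagonal k, a p.1 * a p.2 = (b p.1 * b p.2) * r ^ k := by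
      intro p hp
      rw [Finset.HasAntidiagonal.mem_antidiagonal] at hp
      rw [← hp, pow_add, ha]
      ring
    rw [sum_congr rfl h1, ← sum_mul, Finset.Nat.sum_antidiagonal_eq_sum_range_succ
      (fun i j => b i * b j) k, hb, one_mul]
  refine ⟨fun k => ∑ p ∈ Q.filter (fun p => p.1 + p.2 = k), a p.1 * a p.2, ?_, ?_, ?_⟩
  · intro k hk
    rw [← hant k]
    apply sum_congr _ (fun _ _ => rfl)
    apply subset_antisymm (hsub k)
    intro p hp
    rw [Finset.HasAntidiagonal.mem_antidiagonal] at hp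
    rw [mem_filter, hQ, mem_product, mem_range, mem_range]
    omega
  · intro k
    constructor
    · exact sum_nonneg fun p _ => mul_nonneg (ha0 _) (ha0 _)
    · rw [← hant k]
      exact sum_le_sum_of_subset_of_nonneg (hsub k) fun p _ _ => mul_nonneg (ha0 _) (ha0 _)
  · have h1 : (∑ k ∈ range (K + 1), ((b k * r ^ k : ℝ) : ℂ) * x ^ k) ^ 2 =
        ∑ p ∈ Q, ((a p.1 * a p.2 : ℝ) : ℂ) * x ^ (p.1 + p.2) := by
      rw [sq, sum_mul_sum, hQ, sum_product]
      apply sum_congr rfl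
      intro i _
      apply sum_congr rfl
      intro j _
      rw [pow_add, ha]
      push_cast
      ring
    have h2 : ∀ p ∈ Q, p.1 + p.2 ∈ range (2 * K + 1) := by
      intro p hp
      rw [hQ, mem_product, mem_range, mem_range] at hp
      rw [mem_range]
      omega
    rw [h1, ← sum_fiberwise_of_maps_to h2]
    apply sum_congr rfl
    intro k _
    push_cast
    rw [sum_mul]
    apply sum_congr rfl
    intro p hp
    rw [mem_filter] at hp
    rw [hp.2]

end R9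

open Finset in
/-- **R9** (the one variable polynomial). -/
theorem r9 : R8 → R9 := by
  rintro ⟨hb, hbb, hdiv⟩ M
  obtain ⟨K0, hK0⟩ := hdiv (2 * M)
  -- the radius
  obtain ⟨r, hr0, hr1, hr⟩ : ∃ r : ℝ, 0 < r ∧ r < 1 ∧ 1 / 2 ≤ r ^ (2 * K0) := by
    have h1 : Filter.Tendsto (fun r : ℝ => r ^ (2 * K0)) (nhdsWithin 1 (Set.Iio 1)) (nhds 1) := by
      have : Filter.Tendsto (fun r : ℝ => r ^ (2 * K0)) (nhds 1) (nhds (1 ^ (2 * K0))) :=
        (continuous_pow (2 * K0)).tendsto 1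
      rw [one_pow] at this
      exact this.mono_left nhdsWithin_le_nhds
    have h2 : ∀ᶠ r : ℝ in nhdsWithin 1 (Set.Iio 1), 1 / 2 ≤ r ^ (2 * K0) :=
      h1.eventually (Ici_mem_nhds (by norm_num : (1 : ℝ) / 2 < 1))
    have h3 : ∀ᶠ r : ℝ in nhdsWithin 1 (Set.Iio 1), 0 < r :=
      nhdsWithin_le_nhds (Ioi_mem_nhds (by norm_num : (0 : ℝ) < 1))
    have h4 : ∀ᶠ r : ℝ in nhdsWithin 1 (Set.Iio 1), r < 1 := self_mem_nhdsWithin
    obtain ⟨r, h5, h6, h7⟩ := (h2.and (h3.and h4)).exists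
    exact ⟨r, h6, h7, h5⟩
  -- the degree
  obtain ⟨K, hK, hKr⟩ : ∃ K, K0 ≤ K ∧ r ^ (K + 1) / (1 - r) ≤ 1 / 2 := by
    have h1 : Filter.Tendsto (fun K : ℕ => r ^ (K + 1) / (1 - r)) Filter.atTop
        (nhds (0 / (1 - r))) := by
      apply Filter.Tendsto.div_const
      exact (tendsto_pow_atTop_nhds_zero_of_lt_one hr0.le hr1).comp (Filter.tendsto_add_atTop_nat 1)
    rw [zero_div] at h1
    have h2 := h1.eventually (Iic_mem_nhds (by norm_num : (0 : ℝ) < 1 / 2))
    obtain ⟨K, h3, h4⟩ := (h2.and (Filter.eventually_ge_atTop K0)).exists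
    exact ⟨K, h4, h3⟩
  refine ⟨K, fun k => bk k * r ^ k, ?_, ?_, ?_, ?_⟩
  · simp [bk]
  · intro k
    refine ⟨mul_nonneg (hbb k).1.le (pow_nonneg hr0.le k), ?_⟩
    exact mul_le_one₀ (hbb k).2 (pow_nonneg hr0.le k) (pow_le_one₀ hr0.le hr1.le)
  · have h1 : ∑ k ∈ range K0, bk k ^ 2 * (1 / 2) ≤ ∑ k ∈ range K0, (bk k * r ^ k) ^ 2 := by
      apply sum_le_sum
      intro k hk
      rw [mem_range] at hk
      rw [mul_pow, ← pow_mul]
      apply mul_le_mul_of_nonneg_left _ (sq_nonneg _)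
      refine le_trans hr ?_
      exact pow_le_pow_of_le_one hr0.le hr1.le (by omega)
    have h2 : ∑ k ∈ range K0, (bk k * r ^ k) ^ 2 ≤ ∑ k ∈ range (K + 1), (bk k * r ^ k) ^ 2 := by
      apply sum_le_sum_of_subset_of_nonneg
      · intro k hk
        rw [mem_range] at hk ⊢
        omega
      · intro k _ _
        exact sq_nonneg _
    rw [← sum_mul] at h1
    linarith
  · intro x hx
    obtain ⟨g, hg1, hg2, hg3⟩ := R9.coeffs hr0.le (fun k => (hbb k).1.le) hb K x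
    rw [hg3]
    set T : ℂ := ∑ k ∈ range (2 * K + 1), (g k : ℂ) * x ^ k with hT
    have hrx : ‖(r : ℂ) * x‖ ≤ r := by
      rw [norm_mul, Complex.norm_real, Real.norm_of_nonneg hr0.le]
      nlinarith [norm_nonneg x]
    have hre : 1 - r ≤ (1 - (r : ℂ) * x).re := by
      have h1 := (Complex.abs_re_le_norm ((r : ℂ) * x)).trans hrx
      rw [Complex.sub_re, Complex.one_re]
      have := (abs_le.1 h1).2
      linarith
    have hne : (1 - (r : ℂ) * x) ≠ 0 := by
      intro h0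
      rw [h0, Complex.zero_re] at hre
      linarith
    have hnorm : 1 - r ≤ ‖1 - (r : ℂ) * x‖ := by
      have h1 := norm_sub_norm_le (1 : ℂ) ((r : ℂ) * x)
      rw [norm_one] at h1
      linarith
    have h1r : 0 < 1 - r := by linarith
    -- the geometric series
    have e1 : ‖(1 - (r : ℂ) * x)⁻¹ - ∑ k ∈ range (K + 1), ((r : ℂ) * x) ^ k‖ ≤ 1 / 2 := by
      have h1 : (1 - (r : ℂ) * x)⁻¹ - ∑ k ∈ range (K + 1), ((r : ℂ) * x) ^ k =
          ((r : ℂ) * x) ^ (K + 1) / (1 - (r : ℂ) * x) := by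
        have h2 := mul_neg_geom_sum ((r : ℂ) * x) (K + 1)
        rw [eq_div_iff hne, sub_mul, inv_mul_cancel₀ hne, mul_comm _ (1 - (r : ℂ) * x), h2]
        ring
      rw [h1, norm_div, norm_pow]
      refine le_trans ?_ hKr
      apply div_le_div₀ (pow_nonneg hr0.le _) _ h1r hnorm
      exact pow_le_pow_left₀ (norm_nonneg _) hrx _
    have e2 : ‖T - ∑ k ∈ range (K + 1), ((r : ℂ) * x) ^ k‖ ≤ 1 / 2 := by
      have h1 : T - ∑ k ∈ range (K + 1), ((r : ℂ) * x) ^ k =
          ∑ k ∈ Ico (K + 1) (2 * K + 1), (g k : ℂ) * x ^ k := by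
        rw [hT, ← sum_range_add_sum_Ico _ (show K + 1 ≤ 2 * K + 1 by omega), add_sub_assoc,
          add_comm, ← sub_eq_zero]
        have h2 : ∑ k ∈ range (K + 1), (g k : ℂ) * x ^ k =
            ∑ k ∈ range (K + 1), ((r : ℂ) * x) ^ k := by
          apply sum_congr rfl
          intro k hk
          rw [mem_range] at hk
          rw [hg1 k (by omega), mul_pow]
          push_cast
          ring
        rw [h2]
        ring
      rw [h1]
      refine le_trans (norm_sum_le _ _) ?_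
      refine le_trans ?_ hKr
      refine le_trans ?_ (geom_sum_Ico_le_of_lt_one hr0.le hr1 (m := K + 1) (n := 2 * K + 1))
      apply sum_le_sum
      intro k _
      rw [norm_mul, Complex.norm_real, Real.norm_of_nonneg (hg2 k).1, norm_pow]
      have h3 : ‖x‖ ^ k ≤ 1 := pow_le_one₀ (norm_nonneg x) hx
      calc g k * ‖x‖ ^ k ≤ g k * 1 := mul_le_mul_of_nonneg_left h3 (hg2 k).1
        _ ≤ r ^ k := by rw [mul_one]; exact (hg2 k).2
    have e3 : ‖T - (1 - (r : ℂ) * x)⁻¹‖ ≤ 1 := by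
      have h1 : T - (1 - (r : ℂ) * x)⁻¹ = (T - ∑ k ∈ range (K + 1), ((r : ℂ) * x) ^ k) -
          ((1 - (r : ℂ) * x)⁻¹ - ∑ k ∈ range (K + 1), ((r : ℂ) * x) ^ k) := by ring
      rw [h1]
      refine le_trans (norm_sub_le _ _) ?_
      linarith
    have e4 : 0 ≤ ((1 - (r : ℂ) * x)⁻¹).re := by
      rw [Complex.inv_re]
      apply div_nonneg (by linarith) (Complex.normSq_nonneg _)
    have e5 : -1 ≤ T.re := by
      have h1 := (Complex.abs_re_le_norm (T - (1 - (r : ℂ) * x)⁻¹)).trans e3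
      rw [Complex.sub_re] at h1
      have := (abs_le.1 h1).1
      linarith
    rcases le_or_gt 0 T.re with h0 | h0
    · rw [abs_of_nonneg h0]; linarith
    · rw [abs_of_neg h0]; linarith

end Pool.Agent.Q73.RH
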