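import Pool.Agent.Q73.RH.Fin
import Pool.Agent.Q73.RH.R1
import Pool.Agent.Q73.RH.R3
import Pool.Agent.Q73.RH.R4
import Pool.Agent.Q73.RH.R6
import Pool.Agent.Q73.RH.R7
import Pool.Agent.Q73.RH.R8
import Pool.Agent.Q73.RH.R9
import Pool.Agent.Q73.RH.R10

namespace Pool.Agent.Q73.RH

theorem r10_all : R10 := r10 r1 (r7 r2 (r6 r3 r4 r5)) (r9 r8)

end Pool.Agent.Q73.RH
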