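import Pool.Agent.Q73.RH.Stm

namespace Pool.Agent.Q73.RH

open MeasureTheory

/-- the frozen negation follows from R10. -/
theorem frozen_of (h : R10) : ¬ (∀ n : ℕ, 2 ≤ n → ∃ M : ℝ, ∀ p : MvPolynomial (Fin n) ℂ,
      (MvPolynomial.constantCoeff p).im = 0 →
      ∫ z in {z : Fin n → ℂ | ∑ i, ‖z i‖ ^ 2 ≤ 1},
          ‖MvPolynomial.eval (fun i => z i / ((Real.sqrt (∑ j, ‖z j‖ ^ 2) : ℝ) : ℂ)) p‖
        ≤ M * ∫ z in {z : Fin n → ℂ | ∑ i, ‖z i‖ ^ 2 ≤ 1},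
          |(MvPolynomial.eval (fun i => z i / ((Real.sqrt (∑ j, ‖z j‖ ^ 2) : ℝ) : ℂ)) p).re|) := by
  intro H
  exact h (H 2 le_rfl)

end Pool.Agent.Q73.RH
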