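import Mathlib

/-!
# Project RH (helper73): no `L^1` control of Hardy functions by their real parts on the sphere of `ℂ²`
(frozen statement S04950, problem MP_6b57c7_an).

Plan: approximate inner polynomials `F` on the sphere (`|F| < 1`, `F(0) = 0`, `∫ (1-|F|)` small; R7),
built from the packing construction R6; then `f = q(F)²`, `q` a partial sum of `(1-rz)^{-1/2}`,
has `∫|Re f| ≤ 3` and `∫|f| → ∞` (R9).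
All integrals are over the unit ball `B` of `ℂ²` of functions of `s z = z/|z|`.
-/

namespace Pool.Agent.Q73.RH

open MeasureTheory

abbrev V := Fin 2 → ℂ

/-- radial projection to the unit sphere (`s 0 = 0`). -/
noncomputable def s (z : V) : V := fun i => z i / ((Real.sqrt (∑ j, ‖z j‖ ^ 2) : ℝ) : ℂ)

/-- unit ball -/
def B : Set V := {z : Fin 2 → ℂ | ∑ i, ‖z i‖ ^ 2 ≤ 1}

/-- unit sphere -/
def S : Set V := {z : Fin 2 → ℂ | ∑ i, ‖z i‖ ^ 2 = 1}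

/-- squared Euclidean distance -/
noncomputable def dd (z w : V) : ℝ := ∑ i, ‖z i - w i‖ ^ 2

/-- the linear form `⟨ζ, w⟩ = Σ ζ_i conj(w_i)` as a polynomial. -/
noncomputable def lin (w : V) : MvPolynomial (Fin 2) ℂ :=
  ∑ i, MvPolynomial.C ((starRingEnd ℂ) (w i)) * MvPolynomial.X i

/-- `⟨ζ,w⟩^N ((1+⟨ζ,w⟩)/2)^m`. -/
noncomputable def pk (w : V) (N m : ℕ) : MvPolynomial (Fin 2) ℂ :=
  (lin w) ^ N * (MvPolynomial.C (1 / 2 : ℂ) * (1 + lin w)) ^ m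

/-- **R1** (mean value).  Split `P` into homogeneous components `P_k`, `k ≥ 1`; the map `z ↦ e^{iθ} z`
preserves volume, `B`, and `s(e^{iθ}z) = e^{iθ} s(z)`, so `∫ P_k(s z) = e^{ikθ} ∫ P_k(s z)` for all `θ`,
hence `= 0`.  (All functions are bounded and measurable on `B`, hence integrable.) -/
def R1 : Prop := ∀ P : MvPolynomial (Fin 2) ℂ, MvPolynomial.constantCoeff P = 0 →
  ∫ z in B, MvPolynomial.eval (s z) P = 0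

/-- **R2** (orthogonality).  Same argument: `∫ F_j(s z) conj(G_l(s z)) = e^{i(j-l)θ} ∫ …`, so it vanishes
for `j ≠ l`; `F` has components of degree `< N`, `G` of degree `≥ N`. -/
def R2 : Prop := ∀ (F G : MvPolynomial (Fin 2) ℂ) (N : ℕ), F.totalDegree < N →
  (∀ i < N, MvPolynomial.homogeneousComponent i G = 0) →
  ∫ z in B, MvPolynomial.eval (s z) F * (starRingEnd ℂ) (MvPolynomial.eval (s z) G) = 0

/-- **R3** (nets).  `W` = a maximal subset of `S` with pairwise Euclidean distances `≥ 1/k` (finite,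
because `S` is compact; or by the packing bound): it is a `1/k`-net.  Packing: let `E(w)` be the
Euclidean ball of radius `1/(2k)` about `w ∈ W` (pairwise disjoint, volume `v_0 k^{-4}`,
`v_0 > 0`).  For `x ∈ E(w)`: `|ζ-x|² ≤ 2|ζ-w|² + 2|w-x|² ≤ 2|ζ-w|² + 1/(2k²)`, so
`exp(-k²|ζ-w|²/16) ≤ e exp(-k²|ζ-x|²/32)`; average over `E(w)`, sum over `w`:
`Σ_w exp(-k²|ζ-w|²/16) ≤ e (k⁴/v_0) ∫_{ℂ²} exp(-k²|ζ-x|²/32) dx = (e/v_0) ∫ exp(-|x|²/32) dx = C`. -/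
def R3 : Prop := ∃ C : ℝ, 0 < C ∧ ∀ k : ℕ, 1 ≤ k → ∃ W : Finset V,
  (∀ w ∈ W, w ∈ S) ∧ (∀ ζ ∈ S, ∃ w ∈ W, dd ζ w < 1 / (k : ℝ) ^ 2) ∧
  (∀ ζ ∈ S, ∑ w ∈ W, Real.exp (-((k : ℝ) ^ 2 * dd ζ w / 16)) ≤ C)

/-- **R4** (the peaking polynomials).  Put `λ = ⟨ζ,w⟩`, `Re λ = 1 - |ζ-w|²/2`, `|λ| ≤ 1`.
`|(1+λ)/2|² ≤ (1+Re λ)/2 = 1 - |ζ-w|²/4 ≤ exp(-|ζ-w|²/4)`, hence the upper bound.
`|λ| ≥ Re λ = 1 - |ζ-w|²/2`, `|(1+λ)/2| ≥ (1+Re λ)/2 = 1 - |ζ-w|²/4`; for `|ζ-w|² ≤ 1/m`, `N ≤ m`,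
by Bernoulli `|p| ≥ (1 - N/(2m))(1 - 1/4) ≥ 3/8`.  Degrees: `lin w` is homogeneous of degree 1. -/
def R4 : Prop := ∀ (w : V) (N m : ℕ), w ∈ S → 1 ≤ m →
  (∀ ζ ∈ S, ‖MvPolynomial.eval ζ (pk w N m)‖ ≤ Real.exp (-((m : ℝ) * dd ζ w / 8))) ∧
  (N ≤ m → ∀ ζ ∈ S, dd ζ w ≤ 1 / (m : ℝ) → 3 / 8 ≤ ‖MvPolynomial.eval ζ (pk w N m)‖) ∧
  (∀ i < N, MvPolynomial.homogeneousComponent i (pk w N m) = 0)

/-- **R5** (signs).  Induction on `W`: `∫|G + εh|² = ∫|G|² + ∫|h|² + 2 ε Re ∫ G conj h`, choose the sign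
`ε` making the last term `≥ 0`.  (All functions are bounded and measurable on `B`.) -/
def R5 : Prop := ∀ (W : Finset V) (P : V → MvPolynomial (Fin 2) ℂ), ∃ ε : V → ℝ,
  (∀ w, ε w = 1 ∨ ε w = -1) ∧
  ∑ w ∈ W, ∫ z in B, ‖MvPolynomial.eval (s z) (P w)‖ ^ 2
    ≤ ∫ z in B, ‖∑ w ∈ W, (ε w : ℂ) * MvPolynomial.eval (s z) (P w)‖ ^ 2

/-- **R6** (basic step).  `C` from R3.  Given `φ` and `N`: `φ ≥ a > 0` and `φ ≤ b` on the compact `S`,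
and there is `δ > 0` with `φ(w)/2 ≤ φ(ζ) ≤ 2 φ(w)` for `ζ, w ∈ S`, `|ζ-w| < δ` (uniform continuity).
Choose `k` with `1/k < δ`, `N ≤ k²`, `b exp(-k²δ²/16) ≤ a`; `m = k²`, `W` from R3,
`P_w = φ(w) pk w N m`, signs `ε` from R5, `P = (1/(3C)) Σ ε_w P_w`.
Upper bound, `ζ ∈ S`: `Σ φ(w)|pk| ≤ Σ φ(w) exp(-k²|ζ-w|²/8)`; the `w` with `|ζ-w| < δ` give
`≤ 2φ(ζ) C`; the others `≤ b exp(-k²δ²/16) Σ exp(-k²|ζ-w|²/16) ≤ a C ≤ φ(ζ) C`.  So `|P| ≤ φ`.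
Lower bound: `∫|P|² ≥ (1/(9C²)) Σ φ(w)² ∫|pk(s z)|² ≥ (1/(9C²)) (9/64) Σ_w φ(w)² vol{z ∈ B : |s z - w|² < 1/k²}
≥ (1/(9C²)) (9/64) (1/4) Σ_w ∫_{|s z-w|² < 1/k²} φ(s z)² ≥ (1/(256 C²)) ∫_B φ(s z)²`, because the sets
cover `B` up to `z = 0`. -/
def R6 : Prop := ∃ c : ℝ, 0 < c ∧ ∀ φ : V → ℝ, Continuous φ → (∀ ζ ∈ S, 0 < φ ζ) → ∀ N : ℕ,
  ∃ P : MvPolynomial (Fin 2) ℂ, (∀ i < N, MvPolynomial.homogeneousComponent i P = 0) ∧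
    (∀ ζ ∈ S, ‖MvPolynomial.eval ζ P‖ ≤ φ ζ) ∧
    c * ∫ z in B, φ (s z) ^ 2 ≤ ∫ z in B, ‖MvPolynomial.eval (s z) P‖ ^ 2

/-- **R7** (approximate inner polynomials).  Call `F` admissible if `F(0)=0` and `|F| < 1` on `S`.
Suppose all admissible `F` have `∫ (1-|F|) > ε`.  Given an admissible `F` take `P` from R6 for
`φ = (1-|F|)/2`, `N = deg F + 1`; `F' = F + P` is admissible (`|F'| ≤ (1+|F|)/2 < 1`) and by R2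
`∫|F'|² = ∫|F|² + ∫|P|² ≥ ∫|F|² + (c/4) ∫(1-|F|)² ≥ ∫|F|² + c ε²/(4 vol B)` (Cauchy-Schwarz).
Starting from `F = 0` and iterating, `∫|F|²` exceeds `vol B`, contradiction. -/
def R7 : Prop := ∀ ε > (0 : ℝ), ∃ F : MvPolynomial (Fin 2) ℂ,
  MvPolynomial.constantCoeff F = 0 ∧ (∀ ζ ∈ S, ‖MvPolynomial.eval ζ F‖ < 1) ∧
  ∫ z in B, (1 - ‖MvPolynomial.eval (s z) F‖) ≤ ε

/-- `b_k = C(2k,k)/4^k`, the coefficients of `(1-x)^{-1/2}`. -/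
noncomputable def bk (k : ℕ) : ℝ := (Nat.centralBinom k : ℝ) / 4 ^ k

/-- **R8** (facts about `b_k`).  `Σ_{i+j=k} b_i b_j = 1` (`(1-x)^{-1/2}` squared; or the known identity
`Σ C(2i,i) C(2j,j) = 4^k`), `0 < b_k ≤ 1`, and `b_k² ≥ 1/(4k)` for `k ≥ 1` by induction
(`b_{k+1} = b_k (2k+1)/(2k+2)`, `(2k+1)² ≥ 4k(k+1)`), so `Σ b_k²` diverges. -/
def R8 : Prop := (∀ k, ∑ i ∈ Finset.range (k + 1), bk i * bk (k - i) = 1) ∧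
  (∀ k, 0 < bk k ∧ bk k ≤ 1) ∧ (∀ M : ℝ, ∃ K : ℕ, M ≤ ∑ k ∈ Finset.range K, bk k ^ 2)

/-- **R9** (the one variable polynomial).  For every `M` there are real coefficients `a_0 = 1, a_1, …, a_K ≥ 0`
such that `q(x) = Σ a_k x^k` satisfies `Σ a_k² ≥ M` and
`|Re (q(x)²)| ≤ Re (q(x)²) + 2` for all complex `|x| ≤ 1`.  Proof: `a_k = b_k r^k`.  Choose `K0` with
`Σ_{k<K0} b_k² ≥ 2M`, `r < 1` with `r^{2K0} ≥ 1/2`, `K ≥ K0` with `r^{K+1}/(1-r) ≤ 1`.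
By R8 `q² = Σ_{k≤K} r^k x^k + Σ_{K<k≤2K} c_k r^k x^k`, `0 ≤ c_k ≤ 1`, so
`|q(x)² - 1/(1-rx)| ≤ Σ_{k>K} r^k ≤ 1`, and `Re 1/(1-rx) > 0`; so `Re q² ≥ -1` and
`|Re q²| ≤ Re q² + 2`. -/
def R9 : Prop := ∀ M : ℝ, ∃ (K : ℕ) (a : ℕ → ℝ), a 0 = 1 ∧ (∀ k, 0 ≤ a k ∧ a k ≤ 1) ∧
  M ≤ ∑ k ∈ Finset.range (K + 1), a k ^ 2 ∧
  ∀ x : ℂ, ‖x‖ ≤ 1 → |((∑ k ∈ Finset.range (K + 1), (a k : ℂ) * x ^ k) ^ 2).re|
    ≤ ((∑ k ∈ Finset.range (K + 1), (a k : ℂ) * x ^ k) ^ 2).re + 2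

/-- **R10** (conclusion).  Given `M`, take `q` from R9 with `3M+2`.  For `F` from R7 and `f = q(F)²`:
`∫|Re f| ≤ ∫ (Re f + 2) = 3 vol B` (R1, `f(0) = 1`), and
`∫|f| = ∫|q(F)|² = Σ_{k,l} a_k a_l ∫ F^k conj(F)^l`, where `∫|F|^{2k} ≥ vol B - 2k τ`,
`τ = ∫(1-|F|)`, and for `k > l`: `|∫ F^k conj(F)^l| = |∫ F^{k-l}(|F|^{2l} - 1)| ≤ 2l τ` (R1); so
`∫|f| ≥ vol B Σ a_k² - C_K τ ≥ (3M+1) vol B > M ∫|Re f|` for `τ` small. -/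
def R10 : Prop := ¬ (∃ M : ℝ, ∀ p : MvPolynomial (Fin 2) ℂ,
      (MvPolynomial.constantCoeff p).im = 0 →
      ∫ z in B, ‖MvPolynomial.eval (s z) p‖
        ≤ M * ∫ z in B, |(MvPolynomial.eval (s z) p).re|)

end Pool.Agent.Q73.RH
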